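import Mathlib
import Pool.Agent.H197R2.PG7

/-!
# Counting the `k`-fold prime-indexed primes

`PI k p` (`Pool.Agent.H197R2.PG.PI`): `p, π(p), ..., π^k(p)` are prime.
-/

set_option autoImplicit false

namespace Pool.Agent.V5helper50.PW

open Finset Filter
open Pool.Agent.H197R2.PG (PI)

/-- the elements `p` of `(a, b]` for which `p, π(p), ..., π^k(p)` are prime -/
noncomputable def SS (k a b : ℕ) : Finset ℕ := by
  classical
  exact (Ioc a b).filter (PI k)

lemma mem_SS {k a b p : ℕ} : p ∈ SS k a b ↔ (a < p ∧ p ≤ b) ∧ PI k p := by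
  classical
  unfold SS
  rw [mem_filter, mem_Ioc]

lemma pi_nth (m : ℕ) (hm : 1 ≤ m) : Nat.primeCounting (Nat.nth Nat.Prime (m - 1)) = m := by
  rw [Nat.primeCounting, Nat.primeCounting', Nat.count_succ, ← Nat.primeCounting',
    Nat.primeCounting'_nth_eq, if_pos (Nat.prime_nth_prime _)]
  omega

lemma pi_lt {a p : ℕ} (hp : p.Prime) (h : a < p) : Nat.primeCounting a < Nat.primeCounting p := by
  have h1 : Nat.primeCounting p = Nat.count Nat.Prime p + 1 := by
    rw [Nat.primeCounting, Nat.primeCounting', Nat.count_succ, if_pos hp]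
  have h2 : Nat.primeCounting a ≤ Nat.count Nat.Prime p := by
    rw [Nat.primeCounting, Nat.primeCounting']
    exact Nat.count_monotone _ (by omega)
  omega

lemma PI_succ {k p : ℕ} : PI (k + 1) p ↔ p.Prime ∧ PI k (Nat.primeCounting p) := by
  unfold PI
  constructor
  · intro h
    refine ⟨h 0 (by omega), fun j hj => ?_⟩
    have := h (j + 1) (by omega)
    rwa [Function.iterate_succ_apply] at this
  · rintro ⟨h1, h2⟩ j hj
    rcases j with _ | j
    · exact h1
    · rw [Function.iterate_succ_apply]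
      exact h2 j (by omega)

lemma PI_zero {p : ℕ} : PI 0 p ↔ p.Prime := by
  unfold PI
  constructor
  · intro h
    exact h 0 le_rfl
  · intro h j hj
    have : j = 0 := by omega
    subst this
    exact h

lemma PI_prime {k p : ℕ} (h : PI k p) : p.Prime := h 0 (by omega)

/-- the map `p ↦ π(p)` -/
theorem card_succ (k a b : ℕ) : #(SS (k + 1) a b) = #(SS k (Nat.primeCounting a) (Nat.primeCounting b)) := by
  classical
  apply Finset.card_bij (fun p _ => Nat.primeCounting p)
  · intro p hp
    rw [mem_SS] at hp ⊢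
    obtain ⟨⟨h1, h2⟩, h3⟩ := hp
    rw [PI_succ] at h3
    exact ⟨⟨pi_lt h3.1 h1, Nat.monotone_primeCounting h2⟩, h3.2⟩
  · intro p hp q hq h
    rw [mem_SS] at hp hq
    have hp1 := PI_prime hp.2
    have hq1 := PI_prime hq.2
    rcases lt_trichotomy p q with h1 | h1 | h1
    · have := pi_lt hq1 h1
      omega
    · exact h1
    · have := pi_lt hp1 h1
      omega
  · intro m hm
    rw [mem_SS] at hm
    obtain ⟨⟨h1, h2⟩, h3⟩ := hm
    have hm1 : 1 ≤ m := by omega
    refine ⟨Nat.nth Nat.Prime (m - 1), ?_, pi_nth m hm1⟩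
    rw [mem_SS, PI_succ, pi_nth m hm1]
    refine ⟨⟨?_, ?_⟩, Nat.prime_nth_prime _, h3⟩
    · by_contra hcon
      push Not at hcon
      have := Nat.monotone_primeCounting hcon
      rw [pi_nth m hm1] at this
      omega
    · have h5 : m - 1 < Nat.count Nat.Prime (b + 1) := by
        have : Nat.primeCounting b = Nat.count Nat.Prime (b + 1) := rfl
        omega
      have h6 := Nat.nth_lt_of_lt_count h5
      omega

lemma card_zero (a b : ℕ) : #(SS 0 a b) = Nat.primeCounting b - Nat.primeCounting a := by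
  classical
  have h1 : #(SS 0 a b) = #(Ioc (Nat.primeCounting a) (Nat.primeCounting b)) := by
    apply Finset.card_bij (fun p _ => Nat.primeCounting p)
    · intro p hp
      rw [mem_SS] at hp
      obtain ⟨⟨h1, h2⟩, h3⟩ := hp
      rw [mem_Ioc]
      exact ⟨pi_lt (PI_prime h3) h1, Nat.monotone_primeCounting h2⟩
    · intro p hp q hq h
      rw [mem_SS] at hp hq
      have hp1 := PI_prime hp.2
      have hq1 := PI_prime hq.2
      rcases lt_trichotomy p q with h1 | h1 | h1
      · have := pi_lt hq1 h1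
        omega
      · exact h1
      · have := pi_lt hp1 h1
        omega
    · intro m hm
      rw [mem_Ioc] at hm
      obtain ⟨h1, h2⟩ := hm
      have hm1 : 1 ≤ m := by omega
      refine ⟨Nat.nth Nat.Prime (m - 1), ?_, pi_nth m hm1⟩
      rw [mem_SS, PI_zero]
      refine ⟨⟨?_, ?_⟩, Nat.prime_nth_prime _⟩
      · by_contra hcon
        push Not at hcon
        have := Nat.monotone_primeCounting hcon
        rw [pi_nth m hm1] at this
        omega
      · have h5 : m - 1 < Nat.count Nat.Prime (b + 1) := by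
          have : Nat.primeCounting b = Nat.count Nat.Prime (b + 1) := rfl
          omega
        have h6 := Nat.nth_lt_of_lt_count h5
        omega
  rw [h1, Nat.card_Ioc]

lemma card_mono {k a b a' b' : ℕ} (h1 : a' ≤ a) (h2 : b ≤ b') : #(SS k a b) ≤ #(SS k a' b') := by
  apply Finset.card_le_card
  intro p hp
  rw [mem_SS] at hp ⊢
  exact ⟨⟨by omega, by omega⟩, hp.2⟩

/-- Chebyshev's bounds -/
theorem cheb : ∀ᶠ y : ℕ in atTop, (Nat.primeCounting y : ℝ) ≤ 3 / 2 * y / Real.log y ∧
    (y : ℝ) / (2 * Real.log y) ≤ Nat.primeCounting y := by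
  have h1 := (tendsto_natCast_atTop_atTop (R := ℝ)).eventually
    (Chebyshev.eventually_primeCounting_le (by norm_num : (0 : ℝ) < 1 / 10))
  have h2 := Pool.Agent.H197R2.PG.QQ_card
  filter_upwards [h1, h2, eventually_ge_atTop 3] with y h1 h2 hy
  have hy0 : (0 : ℝ) < y := by exact_mod_cast (by omega : 0 < y)
  have hlog : 0 < Real.log y := Real.log_pos (by exact_mod_cast (by omega : 1 < y))
  constructor
  · rw [Nat.floor_natCast] at h1
    refine h1.trans ?_
    apply div_le_div_of_nonneg_right _ hlog.le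
    apply mul_le_mul_of_nonneg_right _ hy0.le
    have e1 : Real.log 4 = 2 * Real.log 2 := by
      rw [show (4 : ℝ) = 2 ^ 2 by norm_num, Real.log_pow]
      norm_num
    have := Real.log_two_lt_d9
    rw [e1]
    linarith
  · refine h2.trans ?_
    have h4 : #(Pool.Agent.H197R2.PG.QQ y) ≤ Nat.primeCounting y := by
      classical
      rw [Nat.primeCounting, Nat.primeCounting', Nat.count_eq_card_filter_range]
      apply Finset.card_le_card
      intro p hp
      unfold Pool.Agent.H197R2.PG.QQ at hp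
      rw [mem_filter, mem_Ioc] at hp
      rw [mem_filter, mem_range]
      exact ⟨by omega, hp.2⟩
    exact_mod_cast h4

lemma log_le_rpow {a : ℝ} (ha : 0 < a) (B : ℕ) : ∀ᶠ y : ℕ in atTop, Real.log y ^ B ≤ (y : ℝ) ^ a := by
  have h1 := (isLittleO_log_rpow_rpow_atTop (B : ℝ) ha).bound (by norm_num : (0 : ℝ) < 1)
  have h2 := (tendsto_natCast_atTop_atTop (R := ℝ)).eventually h1
  filter_upwards [h2, eventually_ge_atTop 3] with y h2 hy
  have hy0 : (0 : ℝ) < y := by exact_mod_cast (by omega : 0 < y)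
  have hlog : 0 < Real.log y := Real.log_pos (by exact_mod_cast (by omega : 1 < y))
  rw [Real.norm_of_nonneg (by positivity), Real.norm_of_nonneg (by positivity), one_mul,
    Real.rpow_natCast] at h2
  exact h2

/-- the logarithm of `π(y)` -/
lemma log_pi : ∀ᶠ y : ℕ in atTop, Real.log y / 2 ≤ Real.log (Nat.primeCounting y) := by
  filter_upwards [cheb, log_le_rpow (by norm_num : (0 : ℝ) < 1 / 4) 1, eventually_ge_atTop 16] with y h1 h2 hy
  have hy16 : (16 : ℝ) ≤ y := by exact_mod_cast hy
  have hy0 : (0 : ℝ) < y := by linarith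
  have hlog : 0 < Real.log y := Real.log_pos (by linarith)
  rw [pow_one] at h2
  have h3 : (y : ℝ) ^ (1 / 2 : ℝ) ≤ Nat.primeCounting y := by
    refine le_trans ?_ h1.2
    rw [le_div_iff₀ (by positivity)]
    have h4 : (2 : ℝ) ≤ (y : ℝ) ^ (1 / 4 : ℝ) := by
      calc (2 : ℝ) = (16 : ℝ) ^ (1 / 4 : ℝ) := by
            rw [show (16 : ℝ) = 2 ^ (4 : ℝ) by norm_num, ← Real.rpow_mul (by norm_num)]
            norm_num
        _ ≤ _ := Real.rpow_le_rpow (by norm_num) hy16 (by norm_num)
    calc (y : ℝ) ^ (1 / 2 : ℝ) * (2 * Real.log y) ≤ (y : ℝ) ^ (1 / 2 : ℝ) * ((y : ℝ) ^ (1 / 4 : ℝ) * (y : ℝ) ^ (1 / 4 : ℝ)) := by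
          gcongr
      _ = y := by
          rw [← Real.rpow_add hy0, ← Real.rpow_add hy0]
          norm_num
  calc Real.log y / 2 = Real.log ((y : ℝ) ^ (1 / 2 : ℝ)) := by
        rw [Real.log_rpow hy0]
        ring
    _ ≤ _ := Real.log_le_log (by positivity) h3

/-- the number of the `k`-fold prime-indexed primes up to `y`: upper bound -/
theorem upper (k : ℕ) : ∃ C : ℝ, 0 < C ∧ ∀ᶠ y : ℕ in atTop, (#(SS k 0 y) : ℝ) ≤ C * y / Real.log y ^ (k + 1) := by
  induction k with
  | zero =>
    refine ⟨3 / 2, by norm_num, ?_⟩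
    filter_upwards [cheb] with y h1
    rw [card_zero]
    have h2 : ((Nat.primeCounting y - Nat.primeCounting 0 : ℕ) : ℝ) ≤ Nat.primeCounting y := by
      exact_mod_cast Nat.sub_le _ _
    rw [zero_add, pow_one]
    exact h2.trans h1.1
  | succ k ih =>
    obtain ⟨C, hC, hk⟩ := ih
    refine ⟨C * (3 / 2) * 2 ^ (k + 1), by positivity, ?_⟩
    have h5 := Nat.tendsto_primeCounting.eventually hk
    filter_upwards [cheb, log_pi, h5, eventually_ge_atTop 3] with y h1 h2 h5 hy
    have hy0 : (0 : ℝ) < y := by exact_mod_cast (by omega : 0 < y)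
    have hlog : 0 < Real.log y := Real.log_pos (by exact_mod_cast (by omega : 1 < y))
    rw [card_succ]
    have h0 : Nat.primeCounting 0 = 0 := Nat.primeCounting_zero
    rw [h0]
    refine h5.trans ?_
    calc C * (Nat.primeCounting y : ℝ) / Real.log (Nat.primeCounting y) ^ (k + 1)
        ≤ C * (3 / 2 * y / Real.log y) / (Real.log y / 2) ^ (k + 1) := by
          gcongr
          exact h1.1
      _ = C * (3 / 2) * 2 ^ (k + 1) * y / Real.log y ^ (k + 1 + 1) := by
          rw [div_pow, pow_succ (Real.log y) (k + 1)]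
          field_simp

end Pool.Agent.V5helper50.PW
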