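import Mathlib
import Pool.Agent.V5helper50.PW.Base
import Pool.Agent.V5helper51.CR6.All

/-!
# The `k`-fold prime-indexed primes in almost all blocks of length `y ^ (1 / 6 + ε)`

From the theorem on primes in almost all short intervals `Pool.Agent.V5helper51.CR6.sia6`.
-/

set_option autoImplicit false

namespace Pool.Agent.V5helper50.PW

open Finset Filter
open Pool.Agent.H197R2.PG (PI)
open Pool.Agent.V5helper51.CR6 (SIAt sia6)

lemma cc_one : Pool.Agent.Q236.CR.cc 1 0 = 1 := by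
  unfold Pool.Agent.Q236.CR.cc
  simp [Pool.Agent.H469R2.NK.e]

theorem sq_sum (ε : ℝ) (hε : 0 < ε) (hε1 : ε ≤ 1 / 6) (U : ℕ) : ∀ᶠ y : ℕ in atTop, ∀ Y : ℕ,
    (y : ℝ) ^ (1 / 6 + ε) ≤ Y → Y ≤ y →
    ∑ m ∈ Ioc y (2 * y), (∑ n ∈ Ioc m (m + Y), ArithmeticFunction.vonMangoldt n - Y) ^ 2 ≤
      y * (Y : ℝ) ^ 2 / Real.log y ^ U := by
  obtain ⟨C, X₀, h⟩ := sia6 (ε := ε / 2) (by linarith) (by linarith) 0 U
  filter_upwards [log_le_rpow (a := ε / 2) (by linarith) C, eventually_ge_atTop (max X₀ 3)] with y h1 h2 Y hY hYy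
  have hy0 : (0 : ℝ) < y := by
    have := (le_max_right X₀ 3).trans h2
    exact_mod_cast (by omega : 0 < y)
  have h3 : (y : ℝ) ^ (1 / 6 + ε / 2) * Real.log y ^ C ≤ Y := by
    refine le_trans ?_ hY
    calc (y : ℝ) ^ (1 / 6 + ε / 2) * Real.log y ^ C ≤ (y : ℝ) ^ (1 / 6 + ε / 2) * (y : ℝ) ^ (ε / 2) := by gcongr
      _ = (y : ℝ) ^ (1 / 6 + ε) := by
          rw [← Real.rpow_add hy0]
          congr 1
          ring
  have h4 := (h y ((le_max_left _ _).trans h2) 1 le_rfl (by simp) 0 Y h3 hYy).1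
  refine le_trans (le_of_eq ?_) h4
  apply Finset.sum_congr rfl
  intro m _
  rw [cc_one]
  have e1 : ∑ n ∈ Ioc m (m + Y), (ArithmeticFunction.vonMangoldt n : ℂ) *
      Pool.Agent.H469R2.NK.e (((0 : ℕ) : ℝ) * n / ((1 : ℕ) : ℝ)) - 1 * Y =
      ((∑ n ∈ Ioc m (m + Y), ArithmeticFunction.vonMangoldt n - Y : ℝ) : ℂ) := by
    push_cast
    rw [one_mul]
    congr 1
    apply Finset.sum_congr rfl
    intro n _
    simp [Pool.Agent.H469R2.NK.e]
  rw [e1, Complex.norm_real, Real.norm_eq_abs, sq_abs]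

/-- disjoint blocks -/
lemma blocks_le (f : ℕ → ℝ) (hf : ∀ n, 0 ≤ f n) (H w a b : ℕ) (hw : w ≤ H) (J : Finset ℕ)
    (hJ : ∀ j ∈ J, a ≤ j * H ∧ j * H + w ≤ b) :
    ∑ j ∈ J, ∑ n ∈ Ioc (j * H) (j * H + w), f n ≤ ∑ n ∈ Ioc a b, f n := by
  classical
  rw [← Finset.sum_biUnion]
  · apply Finset.sum_le_sum_of_subset_of_nonneg
    · intro n hn
      rw [mem_biUnion] at hn
      obtain ⟨j, hj, hn⟩ := hn
      rw [mem_Ioc] at hn ⊢
      have := hJ j hj
      omega
    · intro n _ _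
      exact hf n
  · intro i _ j _ hij
    simp only [Function.onFun]
    rw [Finset.disjoint_left]
    intro n h1 h2
    rw [mem_Ioc] at h1 h2
    rcases lt_or_gt_of_ne hij with h | h
    · have h3 : (i + 1) * H ≤ j * H := Nat.mul_le_mul_right _ h
      rw [add_mul, one_mul] at h3
      omega
    · have h3 : (j + 1) * H ≤ i * H := Nat.mul_le_mul_right _ h
      rw [add_mul, one_mul] at h3
      omega

/-- the blocks of length `H` in `[y, 2 y)` with few `k`-fold prime-indexed primes -/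
noncomputable def bad (k y H : ℕ) (c : ℝ) : Finset ℕ := by
  classical
  exact (range (2 * y + 1)).filter (fun j => y ≤ j * H ∧ j * H < 2 * y ∧
    (#(SS k (j * H) (j * H + H)) : ℝ) < c * H / Real.log y ^ (k + 1))

lemma mem_bad {k y H : ℕ} {c : ℝ} (hH : 0 < H) {j : ℕ} : j ∈ bad k y H c ↔ y ≤ j * H ∧ j * H < 2 * y ∧
    (#(SS k (j * H) (j * H + H)) : ℝ) < c * H / Real.log y ^ (k + 1) := by
  classical
  unfold bad
  rw [mem_filter, mem_range]
  constructor
  · exact fun h => h.2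
  · intro h
    refine ⟨?_, h⟩
    have : j * 1 ≤ j * H := Nat.mul_le_mul_left _ hH
    omega

/-- almost all blocks are good -/
def BL (k : ℕ) : Prop := ∀ ε : ℝ, 0 < ε → ε ≤ 1 / 6 → ∀ U : ℕ, ∃ c : ℝ, 0 < c ∧ c ≤ 1 ∧
  ∀ᶠ y : ℕ in atTop, ∀ H : ℕ, (y : ℝ) ^ (1 / 6 + ε) ≤ H → H ≤ y →
    (#(bad k y H c) : ℝ) ≤ y / (H * Real.log y ^ U)

/-- the contribution of the primes -/
noncomputable def th (n : ℕ) : ℝ := by classical exact if n.Prime then Real.log n else 0

lemma th_le (n : ℕ) : th n ≤ ArithmeticFunction.vonMangoldt n := by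
  unfold th
  split_ifs with h
  · rw [ArithmeticFunction.vonMangoldt_apply_prime h]
  · exact ArithmeticFunction.vonMangoldt_nonneg

lemma psi_theta (M : ℕ) (hM : 1 ≤ M) : ∑ n ∈ Ioc 0 M, (ArithmeticFunction.vonMangoldt n - th n) ≤
    2 * √M * Real.log M := by
  have h1 := Chebyshev.psi_sub_theta_le (x := (M : ℝ)) (by exact_mod_cast hM)
  refine le_trans (le_of_eq ?_) h1
  unfold Chebyshev.psi Chebyshev.theta
  rw [Nat.floor_natCast, Finset.sum_sub_distrib]
  congr 1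
  rw [Finset.sum_filter]
  apply Finset.sum_congr rfl
  intro n _
  unfold th
  rfl

theorem BL0 : BL 0 := by
  intro ε hε hε1 U
  refine ⟨1 / 16, by norm_num, by norm_num, ?_⟩
  have e1 := sq_sum (ε / 2) (by linarith) (by linarith) (U + 1)
  have e2 : Tendsto (fun y : ℕ => 2 * y) atTop atTop := by
    apply tendsto_atTop_mono (fun n => ?_) tendsto_id
    simp only [id]
    omega
  have e3 := e2.eventually e1
  have hlogt : Tendsto (fun x : ℕ => Real.log (x : ℝ)) atTop atTop :=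
    Real.tendsto_log_atTop.comp tendsto_natCast_atTop_atTop
  have e4 : ∀ᶠ y : ℕ in atTop, (3 * 2 : ℝ) ≤ (y : ℝ) ^ (ε / 2) :=
    ((tendsto_rpow_atTop (by linarith : 0 < ε / 2)).comp tendsto_natCast_atTop_atTop).eventually_ge_atTop _
  have e5 : ∀ᶠ y : ℕ in atTop, (400 : ℝ) ≤ (y : ℝ) ^ (1 / 4 : ℝ) :=
    ((tendsto_rpow_atTop (by norm_num : (0 : ℝ) < 1 / 4)).comp tendsto_natCast_atTop_atTop).eventually_ge_atTop _
  filter_upwards [e1, e3, e4, hlogt.eventually_ge_atTop 72, e5, log_le_rpow (a := 1 / 4) (by norm_num) (U + 1),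
    eventually_ge_atTop 3] with y e1 e3 e4 e6 e5 e7 hy H hH hHy
  set L := Real.log (y : ℝ) with hL
  have hy0 : (0 : ℝ) < y := by exact_mod_cast (by omega : 0 < y)
  have hy3 : (3 : ℝ) ≤ y := by exact_mod_cast hy
  have hL0 : 0 < L := by linarith
  -- the length
  have hy1 : (1 : ℝ) ≤ (y : ℝ) ^ (1 / 6 + ε / 2) := Real.one_le_rpow (by linarith) (by linarith)
  have hsplit : (y : ℝ) ^ (1 / 6 + ε / 2) * (y : ℝ) ^ (ε / 2) = (y : ℝ) ^ (1 / 6 + ε) := by
    rw [← Real.rpow_add hy0]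
    congr 1
    ring
  have hH6 : 6 * (y : ℝ) ^ (1 / 6 + ε / 2) ≤ H := by
    calc 6 * (y : ℝ) ^ (1 / 6 + ε / 2) = (y : ℝ) ^ (1 / 6 + ε / 2) * (3 * 2) := by ring
      _ ≤ (y : ℝ) ^ (1 / 6 + ε / 2) * (y : ℝ) ^ (ε / 2) := by gcongr
      _ = (y : ℝ) ^ (1 / 6 + ε) := hsplit
      _ ≤ H := hH
  have hH6' : (6 : ℝ) ≤ H := by linarith
  have hH6n : 6 ≤ H := by exact_mod_cast hH6'
  have hH0 : (0 : ℝ) < H := by linarith
  set Y := H / 2 with hY
  have hY3 : (H : ℝ) ≤ 3 * Y := by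
    have : H ≤ 3 * Y := by omega
    exact_mod_cast this
  have hY0 : (0 : ℝ) < Y := by linarith
  have hYH : 2 * Y ≤ H := by omega
  have hYl : 2 * (y : ℝ) ^ (1 / 6 + ε / 2) ≤ Y := by linarith
  have hY1 : (y : ℝ) ^ (1 / 6 + ε / 2) ≤ Y := by linarith
  have hY2 : ((2 * y : ℕ) : ℝ) ^ (1 / 6 + ε / 2) ≤ Y := by
    refine le_trans ?_ hYl
    push_cast
    rw [Real.mul_rpow (by norm_num) hy0.le]
    apply mul_le_mul_of_nonneg_right _ (by positivity)
    calc (2 : ℝ) ^ (1 / 6 + ε / 2) ≤ 2 ^ (1 : ℝ) := Real.rpow_le_rpow_of_exponent_le (by norm_num) (by linarith)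
      _ = 2 := Real.rpow_one 2
  have s1 := e1 Y hY1 (by omega)
  have s2 := e3 Y hY2 (by omega)
  set g : ℕ → ℝ := fun m => (∑ n ∈ Ioc m (m + Y), ArithmeticFunction.vonMangoldt n - Y) ^ 2 with hg
  have hg0 : ∀ m, 0 ≤ g m := fun m => sq_nonneg _
  have s3 : ∑ m ∈ Ioc y (4 * y), g m ≤ 3 * y * Y ^ 2 / L ^ (U + 1) := by
    have hun : Ioc y (4 * y) = Ioc y (2 * y) ∪ Ioc (2 * y) (2 * (2 * y)) := by
      rw [Finset.Ioc_union_Ioc_eq_Ioc (by omega) (by omega)]
      congr 1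
      ring
    have hdis : Disjoint (Ioc y (2 * y)) (Ioc (2 * y) (2 * (2 * y))) := by
      rw [Finset.disjoint_left]
      intro n h1 h2
      rw [mem_Ioc] at h1 h2
      omega
    rw [hun, Finset.sum_union hdis]
    have hL2 : L ≤ Real.log ((2 * y : ℕ) : ℝ) := by
      apply Real.log_le_log hy0
      push_cast
      linarith
    have s2' : ∑ m ∈ Ioc (2 * y) (2 * (2 * y)), g m ≤ 2 * y * Y ^ 2 / L ^ (U + 1) := by
      refine s2.trans ?_
      push_cast
      push_cast at hL2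
      gcongr
    calc _ ≤ y * (Y : ℝ) ^ 2 / L ^ (U + 1) + 2 * y * Y ^ 2 / L ^ (U + 1) := add_le_add s1 s2'
      _ = 3 * y * Y ^ 2 / L ^ (U + 1) := by ring
  -- the bad blocks
  classical
  set J := bad 0 y H (1 / 16) with hJ
  have hJm : ∀ j ∈ J, y ≤ j * H ∧ j * H < 2 * y ∧ (∑ n ∈ Ioc (j * H) (j * H + H), th n) ≤ H / 8 := by
    intro j hj
    rw [hJ, mem_bad (by omega)] at hj
    obtain ⟨h1, h2, h3⟩ := hj
    refine ⟨h1, h2, ?_⟩
    rw [zero_add, pow_one, ← hL] at h3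
    have h4 : ∑ n ∈ Ioc (j * H) (j * H + H), th n ≤ #(SS 0 (j * H) (j * H + H)) * (2 * L) := by
      have h5 : ∑ n ∈ Ioc (j * H) (j * H + H), th n = ∑ n ∈ SS 0 (j * H) (j * H + H), Real.log n := by
        have h6 : SS 0 (j * H) (j * H + H) = (Ioc (j * H) (j * H + H)).filter Nat.Prime := by
          ext p
          rw [mem_SS, mem_filter, mem_Ioc, PI_zero]
        rw [h6, Finset.sum_filter]
        apply Finset.sum_congr rfl
        intro n _
        unfold th
        rfl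
      rw [h5, ← nsmul_eq_mul]
      apply Finset.sum_le_card_nsmul
      intro n hn
      rw [mem_SS] at hn
      have h7 : n ≤ 3 * y := by omega
      have h8 : (n : ℝ) ≤ 3 * y := by exact_mod_cast h7
      have hn0 : (0 : ℝ) < n := by
        have := (PI_prime hn.2).pos
        exact_mod_cast this
      calc Real.log n ≤ Real.log (y * y) := by
            apply Real.log_le_log hn0
            nlinarith
        _ = 2 * L := by
            rw [Real.log_mul hy0.ne' hy0.ne', ← hL]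
            ring
    refine h4.trans ?_
    calc (#(SS 0 (j * H) (j * H + H)) : ℝ) * (2 * L) ≤ (1 / 16 * H / L) * (2 * L) := by gcongr
      _ = H / 8 := by field_simp; norm_num
  set J1 := J.filter (fun j => (∑ n ∈ Ioc (j * H) (j * H + H), ArithmeticFunction.vonMangoldt n) < (Y : ℝ) / 2) with hJ1
  set J2 := J.filter (fun j => ¬ (∑ n ∈ Ioc (j * H) (j * H + H), ArithmeticFunction.vonMangoldt n) < (Y : ℝ) / 2) with hJ2
  have hcard : #J1 + #J2 = #J := Finset.card_filter_add_card_filter_not _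
  have t1 : (#J1 : ℝ) * (Y ^ 3 / 4) ≤ 3 * y * Y ^ 2 / L ^ (U + 1) := by
    refine le_trans ?_ s3
    refine le_trans ?_ (blocks_le g hg0 H Y y (4 * y) (by omega) J1 ?_)
    · rw [← nsmul_eq_mul]
      apply Finset.card_nsmul_le_sum
      intro j hj
      rw [hJ1, mem_filter] at hj
      have h1 : ∀ m ∈ Ioc (j * H) (j * H + Y), (Y : ℝ) ^ 2 / 4 ≤ g m := by
        intro m hm
        rw [mem_Ioc] at hm
        have h2 : ∑ n ∈ Ioc m (m + Y), ArithmeticFunction.vonMangoldt n ≤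
            ∑ n ∈ Ioc (j * H) (j * H + H), ArithmeticFunction.vonMangoldt n := by
          apply Finset.sum_le_sum_of_subset_of_nonneg
          · intro n hn
            rw [mem_Ioc] at hn ⊢
            omega
          · intro n _ _
            exact ArithmeticFunction.vonMangoldt_nonneg
        have h3 : ∑ n ∈ Ioc m (m + Y), ArithmeticFunction.vonMangoldt n < (Y : ℝ) / 2 := lt_of_le_of_lt h2 hj.2
        simp only [hg]
        nlinarith
      calc (Y : ℝ) ^ 3 / 4 = (#(Ioc (j * H) (j * H + Y)) : ℝ) * (Y ^ 2 / 4) := by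
            rw [Nat.card_Ioc]
            have : j * H + Y - j * H = Y := by omega
            rw [this]
            ring
        _ = #(Ioc (j * H) (j * H + Y)) • ((Y : ℝ) ^ 2 / 4) := by rw [nsmul_eq_mul]
        _ ≤ _ := Finset.card_nsmul_le_sum _ _ _ h1
    · intro j hj
      rw [hJ1, mem_filter] at hj
      have h3 := hJm j hj.1
      omega
  have t2 : (#J2 : ℝ) * (H / 24) ≤ 2 * √((4 * y : ℕ) : ℝ) * Real.log ((4 * y : ℕ) : ℝ) := by
    refine le_trans ?_ (psi_theta (4 * y) (by omega))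
    have hf0 : ∀ n, 0 ≤ ArithmeticFunction.vonMangoldt n - th n := fun n => sub_nonneg.mpr (th_le n)
    refine le_trans ?_ (blocks_le (fun n => ArithmeticFunction.vonMangoldt n - th n) hf0 H H 0 (4 * y) le_rfl J2 ?_)
    · rw [← nsmul_eq_mul]
      apply Finset.card_nsmul_le_sum
      intro j hj
      rw [hJ2, mem_filter, not_lt] at hj
      have h3 := (hJm j hj.1).2.2
      rw [Finset.sum_sub_distrib]
      linarith [hj.2]
    · intro j hj
      rw [hJ2, mem_filter] at hj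
      have h3 := hJm j hj.1
      omega
  -- conclusion
  have u1 : (#J1 : ℝ) ≤ y / (H * L ^ U) / 2 := by
    have h1 : (#J1 : ℝ) ≤ 12 * y / (Y * L ^ (U + 1)) := by
      rw [le_div_iff₀ (by positivity)]
      rw [le_div_iff₀ (by positivity)] at t1
      have h2 : (Y : ℝ) ^ 2 * ((#J1 : ℝ) * (Y * L ^ (U + 1))) ≤ Y ^ 2 * (12 * y) := by
        calc (Y : ℝ) ^ 2 * ((#J1 : ℝ) * ((Y : ℝ) * L ^ (U + 1))) =
              4 * ((#J1 : ℝ) * ((Y : ℝ) ^ 3 / 4) * L ^ (U + 1)) := by ring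
          _ ≤ 4 * (3 * (y : ℝ) * (Y : ℝ) ^ 2) := by gcongr
          _ = _ := by ring
      exact le_of_mul_le_mul_left h2 (by positivity)
    refine h1.trans ?_
    rw [div_div, div_le_div_iff₀ (by positivity) (by positivity)]
    have h3 : (H : ℝ) * 24 ≤ Y * L := by
      calc (H : ℝ) * 24 ≤ (3 * Y) * 24 := by gcongr
        _ = Y * 72 := by ring
        _ ≤ Y * L := by gcongr
    calc 12 * (y : ℝ) * ((H : ℝ) * L ^ U * 2) = (y : ℝ) * L ^ U * ((H : ℝ) * 24) := by ring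
      _ ≤ (y : ℝ) * L ^ U * ((Y : ℝ) * L) := by gcongr
      _ = (y : ℝ) * ((Y : ℝ) * L ^ (U + 1)) := by ring
  have u2 : (#J2 : ℝ) ≤ y / (H * L ^ U) / 2 := by
    have h1 : √((4 * y : ℕ) : ℝ) = 2 * √(y : ℝ) := by
      push_cast
      rw [Real.sqrt_mul (by norm_num), show (4 : ℝ) = 2 ^ 2 by norm_num, Real.sqrt_sq (by norm_num)]
    have h2 : Real.log ((4 * y : ℕ) : ℝ) ≤ 2 * L := by
      push_cast
      calc Real.log (4 * (y : ℝ)) ≤ Real.log (y * y) := by
            apply Real.log_le_log (by positivity)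
            have : (4 : ℝ) ≤ y := by
              by_contra hcon
              push Not at hcon
              have h3 : L ≤ Real.log 4 := Real.log_le_log hy0 hcon.le
              have h4 : Real.log 4 ≤ 4 := by
                have := Real.log_le_sub_one_of_pos (by norm_num : (0 : ℝ) < 4)
                linarith
              linarith
            nlinarith
        _ = 2 * L := by
            rw [Real.log_mul hy0.ne' hy0.ne', ← hL]
            ring
    rw [h1] at t2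
    have h3 : (#J2 : ℝ) * H ≤ 192 * √(y : ℝ) * L := by
      have : (#J2 : ℝ) * (H / 24) ≤ 2 * (2 * √(y : ℝ)) * (2 * L) := t2.trans (by gcongr)
      linarith
    rw [div_div, le_div_iff₀ (by positivity)]
    have h4 : √(y : ℝ) = (y : ℝ) ^ (1 / 2 : ℝ) := Real.sqrt_eq_rpow _
    calc (#J2 : ℝ) * (H * L ^ U * 2) = ((#J2 : ℝ) * H) * L ^ U * 2 := by ring
      _ ≤ (192 * √(y : ℝ) * L) * L ^ U * 2 := by gcongr
      _ = 384 * √(y : ℝ) * L ^ (U + 1) := by ring
      _ ≤ (y : ℝ) ^ (1 / 4 : ℝ) * √(y : ℝ) * (y : ℝ) ^ (1 / 4 : ℝ) := by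
          gcongr
          linarith
      _ = y := by
          rw [h4, ← Real.rpow_add hy0, ← Real.rpow_add hy0]
          norm_num
  have : (#J : ℝ) = #J1 + #J2 := by exact_mod_cast hcard.symm
  rw [this]
  linarith

theorem BL_succ (k : ℕ) (ih : BL k) : BL (k + 1) := by
  intro ε hε hε1 U
  obtain ⟨c0, hc0, hc01, ev0⟩ := BL0 ε hε hε1 (U + 1)
  obtain ⟨ck, hck, hck1, evk⟩ := ih (ε / 2) (by linarith) (by linarith) (U + 1)
  refine ⟨ck * c0 / 4, by positivity, by nlinarith, ?_⟩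
  obtain ⟨y1, hy1⟩ := eventually_atTop.mp evk
  have hlogt : Tendsto (fun x : ℕ => Real.log (x : ℝ)) atTop atTop :=
    Real.tendsto_log_atTop.comp tendsto_natCast_atTop_atTop
  have e3 : Tendsto (fun y : ℕ => 3 * y) atTop atTop := by
    apply tendsto_atTop_mono (fun n => ?_) tendsto_id
    simp only [id]
    omega
  have e4 : ∀ᶠ y : ℕ in atTop, (4 / c0 : ℝ) ≤ (y : ℝ) ^ (ε / 4) :=
    ((tendsto_rpow_atTop (by linarith : 0 < ε / 4)).comp tendsto_natCast_atTop_atTop).eventually_ge_atTop _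
  have e5 : ∀ᶠ y : ℕ in atTop, ((y1 : ℝ) + 16) ≤ (y : ℝ) ^ (1 / 4 : ℝ) :=
    ((tendsto_rpow_atTop (by norm_num : (0 : ℝ) < 1 / 4)).comp tendsto_natCast_atTop_atTop).eventually_ge_atTop _
  filter_upwards [ev0, cheb, e3.eventually cheb, e4, e5, log_le_rpow (a := ε / 4) (by linarith) 1,
    log_le_rpow (a := 1 / 4) (by norm_num) 1, hlogt.eventually_ge_atTop (60 * 2 ^ (U + 1) / c0 + 4),
    eventually_ge_atTop 3] with y ev0 hch hch3 e4 e5 e6 e7 e8 hy H hH hHy
  classical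
  rw [pow_one] at e6 e7
  set L := Real.log (y : ℝ) with hL
  have hy0 : (0 : ℝ) < y := by exact_mod_cast (by omega : 0 < y)
  have hy3 : (3 : ℝ) ≤ y := by exact_mod_cast hy
  have hL4 : 4 ≤ L := by
    have : 0 ≤ 60 * 2 ^ (U + 1) / c0 := by positivity
    linarith
  have hL0 : 0 < L := by linarith
  have hyH1 : (1 : ℝ) ≤ (y : ℝ) ^ (1 / 6 + ε) := Real.one_le_rpow (by linarith) (by linarith)
  have hH0 : (0 : ℝ) < H := by linarith
  have hH0' : 0 < H := by exact_mod_cast hH0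
  set y' := ⌊(y : ℝ) / (2 * L)⌋₊ with hy'
  set H' := ⌊c0 * H / (2 * L)⌋₊ with hH'
  -- sizes
  have a1 : (y' : ℝ) ≤ y / (2 * L) := Nat.floor_le (by positivity)
  have a2 : (y : ℝ) / (2 * L) < y' + 1 := Nat.lt_floor_add_one _
  have a3 : (H' : ℝ) ≤ c0 * H / (2 * L) := Nat.floor_le (by positivity)
  have a4 : c0 * H / (2 * L) < H' + 1 := Nat.lt_floor_add_one _
  have hsplit : (y : ℝ) ^ (1 / 6 + ε / 2) * (y : ℝ) ^ (ε / 2) = (y : ℝ) ^ (1 / 6 + ε) := by
    rw [← Real.rpow_add hy0]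
    congr 1
    ring
  have hbase : (y : ℝ) ^ (1 / 6 + ε / 2) ≤ c0 * H / (4 * L) := by
    rw [le_div_iff₀ (by positivity)]
    have h1 : 4 * L / c0 ≤ (y : ℝ) ^ (ε / 2) := by
      calc 4 * L / c0 = (4 / c0) * L := by ring
        _ ≤ (y : ℝ) ^ (ε / 4) * (y : ℝ) ^ (ε / 4) := by gcongr
        _ = (y : ℝ) ^ (ε / 2) := by
            rw [← Real.rpow_add hy0]
            congr 1
            ring
    calc (y : ℝ) ^ (1 / 6 + ε / 2) * (4 * L) = c0 * ((y : ℝ) ^ (1 / 6 + ε / 2) * (4 * L / c0)) := by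
          field_simp
      _ ≤ c0 * ((y : ℝ) ^ (1 / 6 + ε / 2) * (y : ℝ) ^ (ε / 2)) := by gcongr
      _ = c0 * (y : ℝ) ^ (1 / 6 + ε) := by rw [hsplit]
      _ ≤ c0 * H := by gcongr
  have hbase1 : (1 : ℝ) ≤ (y : ℝ) ^ (1 / 6 + ε / 2) := Real.one_le_rpow (by linarith) (by linarith)
  have hhalf : c0 * H / (4 * L) = c0 * H / (2 * L) / 2 := by
    field_simp
    ring
  have a5 : c0 * H / (4 * L) ≤ H' := by
    rw [hhalf] at hbase ⊢
    linarith
  have a6 : (y : ℝ) ^ (1 / 6 + ε / 2) ≤ H' := hbase.trans a5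
  have hH'0 : (0 : ℝ) < H' := by linarith
  have hH'0' : 0 < H' := by exact_mod_cast hH'0
  have a7 : H' ≤ y' := by
    apply Nat.floor_le_floor
    have : (H : ℝ) ≤ y := by exact_mod_cast hHy
    gcongr
    nlinarith
  have hsq : (y : ℝ) ^ (1 / 2 : ℝ) * ((y : ℝ) ^ (1 / 4 : ℝ) * (y : ℝ) ^ (1 / 4 : ℝ)) = y := by
    rw [← Real.rpow_add hy0, ← Real.rpow_add hy0]
    norm_num
  have hsq0 : 0 < (y : ℝ) ^ (1 / 2 : ℝ) := Real.rpow_pos_of_pos hy0 _
  have hq0 : 0 < (y : ℝ) ^ (1 / 4 : ℝ) := Real.rpow_pos_of_pos hy0 _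
  have hy1nn : (0 : ℝ) ≤ y1 := Nat.cast_nonneg _
  have hsq1 : (y : ℝ) ^ (1 / 2 : ℝ) = (y : ℝ) ^ (1 / 4 : ℝ) * (y : ℝ) ^ (1 / 4 : ℝ) := by
    rw [← Real.rpow_add hy0]
    norm_num
  have a8 : 8 * (y : ℝ) ^ (1 / 2 : ℝ) ≤ y / (2 * L) := by
    rw [le_div_iff₀ (by positivity)]
    calc 8 * (y : ℝ) ^ (1 / 2 : ℝ) * (2 * L) = (y : ℝ) ^ (1 / 2 : ℝ) * (16 * L) := by ring
      _ ≤ (y : ℝ) ^ (1 / 2 : ℝ) * ((y : ℝ) ^ (1 / 4 : ℝ) * (y : ℝ) ^ (1 / 4 : ℝ)) := by
          gcongr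
          linarith
      _ = y := hsq
  have a9 : (y : ℝ) ^ (1 / 2 : ℝ) + y1 + 16 ≤ y' := by
    have : (y1 : ℝ) + 16 ≤ (y : ℝ) ^ (1 / 2 : ℝ) := by
      rw [hsq1]
      nlinarith
    linarith
  have hy'0 : (0 : ℝ) < y' := by linarith
  have hlogy' : L / 2 ≤ Real.log y' := by
    calc L / 2 = Real.log ((y : ℝ) ^ (1 / 2 : ℝ)) := by
          rw [Real.log_rpow hy0, ← hL]
          ring
      _ ≤ Real.log y' := Real.log_le_log hsq0 (by linarith)
  have a10 : 8 * (y' : ℝ) ≤ y := by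
    have : 8 * (y / (2 * L)) ≤ y := by
      rw [mul_div_assoc', div_le_iff₀ (by positivity)]
      nlinarith
    linarith
  have hlow : y' ≤ Nat.primeCounting y := by
    have : (y' : ℝ) ≤ Nat.primeCounting y := a1.trans hch.2
    exact_mod_cast this
  have hhigh : Nat.primeCounting (3 * y) ≤ 16 * y' := by
    have h1 : (Nat.primeCounting (3 * y) : ℝ) ≤ 16 * y' := by
      refine hch3.1.trans ?_
      push_cast
      have h2 : L ≤ Real.log (3 * y) := Real.log_le_log hy0 (by linarith)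
      have h3 : 3 / 2 * (3 * (y : ℝ)) / Real.log (3 * y) ≤ 3 / 2 * (3 * (y : ℝ)) / L := by gcongr
      have h4 : 3 / 2 * (3 * (y : ℝ)) / L = 9 * (y / (2 * L)) := by
        field_simp
        ring
      linarith
    exact_mod_cast h1
  -- the map
  set J := bad (k + 1) y H (ck * c0 / 4) with hJ
  set B0 := bad 0 y H c0 with hB0
  set J' := J \ B0 with hJ'
  set g : ℕ → ℕ := fun j => (Nat.primeCounting (j * H) + (H' - 1)) / H' with hg
  have hg1 : ∀ j, Nat.primeCounting (j * H) ≤ g j * H' := by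
    intro j
    have h1 := Nat.lt_div_mul_add (a := Nat.primeCounting (j * H) + (H' - 1)) hH'0'
    simp only [hg]
    omega
  have hg2 : ∀ j, g j * H' ≤ Nat.primeCounting (j * H) + (H' - 1) := fun j => Nat.div_mul_le_self _ _
  have hJ'm : ∀ j ∈ J', y ≤ j * H ∧ j * H < 2 * y ∧
      Nat.primeCounting (j * H) + 2 * H' ≤ Nat.primeCounting (j * H + H) ∧
      (#(SS (k + 1) (j * H) (j * H + H)) : ℝ) < ck * c0 / 4 * H / L ^ (k + 1 + 1) := by
    intro j hj
    rw [hJ', Finset.mem_sdiff, hJ, hB0, mem_bad hH0', mem_bad hH0'] at hj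
    obtain ⟨⟨h1, h2, h3⟩, h4⟩ := hj
    refine ⟨h1, h2, ?_, h3⟩
    have h5 : c0 * H / L ≤ #(SS 0 (j * H) (j * H + H)) := by
      by_contra hcon
      push Not at hcon
      apply h4
      rw [zero_add, pow_one, ← hL]
      exact ⟨h1, h2, hcon⟩
    rw [card_zero] at h5
    have h6 : 2 * (H' : ℝ) ≤ ((Nat.primeCounting (j * H + H) - Nat.primeCounting (j * H) : ℕ) : ℝ) := by
      refine le_trans ?_ h5
      calc 2 * (H' : ℝ) ≤ 2 * (c0 * H / (2 * L)) := by gcongr
        _ = c0 * H / L := by field_simp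
    have h7 : 2 * H' ≤ Nat.primeCounting (j * H + H) - Nat.primeCounting (j * H) := by exact_mod_cast h6
    omega
  have hinj : Set.InjOn g (J' : Set ℕ) := by
    have key : ∀ i ∈ J', ∀ j ∈ J', i < j → g i < g j := by
      intro i hi j hj hij
      have h1 := (hJ'm i hi).2.2.1
      have h2 := hg2 i
      have h3 := hg1 j
      have h4 : i * H + H ≤ j * H := by
        have : (i + 1) * H ≤ j * H := Nat.mul_le_mul_right _ hij
        linarith
      have h5 := Nat.monotone_primeCounting h4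
      have h6 : g i * H' < g j * H' := by omega
      exact lt_of_mul_lt_mul_right h6 (Nat.zero_le _)
    intro i hi j hj hij
    rcases lt_trichotomy i j with h | h | h
    · have := key i hi j hj h
      omega
    · exact h
    · have := key j hj i hi h
      omega
  have himg : J'.image g ⊆ (range 4).biUnion (fun i => bad k (2 ^ i * y') H' ck) := by
    intro j' hj'
    obtain ⟨j, hj, rfl⟩ := mem_image.mp hj'
    obtain ⟨h1, h2, h3, h4⟩ := hJ'm j hj
    have h5 := hg1 j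
    have h6 := hg2 j
    have h7 : y' ≤ g j * H' := hlow.trans ((Nat.monotone_primeCounting h1).trans h5)
    have h8 : g j * H' < 16 * y' := by
      have h9 : Nat.primeCounting (j * H + H) ≤ Nat.primeCounting (3 * y) :=
        Nat.monotone_primeCounting (by omega)
      omega
    have hcnt : (#(SS k (g j * H') (g j * H' + H')) : ℝ) < ck * H' / L ^ (k + 1) := by
      have h9 : #(SS k (g j * H') (g j * H' + H')) ≤ #(SS (k + 1) (j * H) (j * H + H)) := by
        rw [card_succ]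
        apply card_mono h5
        omega
      have h9' : (#(SS k (g j * H') (g j * H' + H')) : ℝ) ≤ #(SS (k + 1) (j * H) (j * H + H)) := by
        exact_mod_cast h9
      refine lt_of_le_of_lt h9' (lt_of_lt_of_le h4 ?_)
      calc ck * c0 / 4 * H / L ^ (k + 1 + 1) = ck * (c0 * H / (4 * L)) / L ^ (k + 1) := by
            rw [pow_succ L (k + 1)]
            field_simp
        _ ≤ ck * H' / L ^ (k + 1) := by gcongr
    have hmem : ∀ i, i < 4 → 2 ^ i * y' ≤ g j * H' → g j * H' < 2 * (2 ^ i * y') →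
        g j ∈ (range 4).biUnion (fun i => bad k (2 ^ i * y') H' ck) := by
      intro i hi h10 h11
      rw [mem_biUnion]
      refine ⟨i, mem_range.mpr hi, ?_⟩
      rw [mem_bad hH'0']
      refine ⟨h10, h11, lt_of_lt_of_le hcnt ?_⟩
      have h12 : ((2 ^ i * y' : ℕ) : ℝ) ≤ y := by
        have h13 : 2 ^ i ≤ 8 := by
          interval_cases i <;> norm_num
        have h14 : ((2 ^ i * y' : ℕ) : ℝ) ≤ ((8 * y' : ℕ) : ℝ) := by
          exact_mod_cast Nat.mul_le_mul_right _ h13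
        push_cast at h14 ⊢
        linarith
      have h15 : 1 ≤ 2 ^ i := Nat.one_le_two_pow
      have h16 : (y' : ℝ) ≤ ((2 ^ i * y' : ℕ) : ℝ) := by
        exact_mod_cast Nat.le_mul_of_pos_left _ h15
      have h17 : Real.log ((2 ^ i * y' : ℕ) : ℝ) ≤ L := Real.log_le_log (by linarith) h12
      have h18 : 0 < Real.log ((2 ^ i * y' : ℕ) : ℝ) := by
        have : Real.log (y' : ℝ) ≤ Real.log ((2 ^ i * y' : ℕ) : ℝ) := Real.log_le_log hy'0 h16
        linarith
      gcongr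
    rcases Nat.lt_or_ge (g j * H') (2 * y') with h | h
    · exact hmem 0 (by norm_num) (by omega) (by omega)
    rcases Nat.lt_or_ge (g j * H') (4 * y') with h' | h'
    · exact hmem 1 (by norm_num) (by omega) (by omega)
    rcases Nat.lt_or_ge (g j * H') (8 * y') with h'' | h''
    · exact hmem 2 (by norm_num) (by omega) (by omega)
    · exact hmem 3 (by norm_num) (by omega) (by omega)
  have hbadk : ∀ i, i < 4 → (#(bad k (2 ^ i * y') H' ck) : ℝ) ≤ 2 ^ i * (y' / (H' * (L / 2) ^ (U + 1))) := by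
    intro i hi
    have h15 : 1 ≤ 2 ^ i := Nat.one_le_two_pow
    have h14 : y' ≤ 2 ^ i * y' := Nat.le_mul_of_pos_left _ h15
    have h13 : 2 ^ i ≤ 8 := by
      interval_cases i <;> norm_num
    have h12 : ((2 ^ i * y' : ℕ) : ℝ) ≤ y := by
      have h14 : ((2 ^ i * y' : ℕ) : ℝ) ≤ ((8 * y' : ℕ) : ℝ) := by
        exact_mod_cast Nat.mul_le_mul_right _ h13
      push_cast at h14 ⊢
      linarith
    have hy1' : y1 ≤ y' := by
      have : (y1 : ℝ) ≤ y' := by linarith
      exact_mod_cast this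
    have h17 := hy1 (2 ^ i * y') (by omega) H' ?_ (by omega)
    · refine h17.trans ?_
      have h16 : (y' : ℝ) ≤ ((2 ^ i * y' : ℕ) : ℝ) := by exact_mod_cast h14
      have h18 : L / 2 ≤ Real.log ((2 ^ i * y' : ℕ) : ℝ) :=
        hlogy'.trans (Real.log_le_log hy'0 h16)
      calc ((2 ^ i * y' : ℕ) : ℝ) / (H' * Real.log ((2 ^ i * y' : ℕ) : ℝ) ^ (U + 1))
          ≤ ((2 ^ i * y' : ℕ) : ℝ) / (H' * (L / 2) ^ (U + 1)) := by gcongr
        _ = 2 ^ i * (y' / (H' * (L / 2) ^ (U + 1))) := by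
            push_cast
            ring
    · refine le_trans ?_ a6
      apply Real.rpow_le_rpow (Nat.cast_nonneg _) h12
      linarith
  have hJ'c : (#J' : ℝ) ≤ 15 * (y' / (H' * (L / 2) ^ (U + 1))) := by
    have h1 : #J' ≤ ∑ i ∈ range 4, #(bad k (2 ^ i * y') H' ck) := by
      calc #J' = #(J'.image g) := (Finset.card_image_of_injOn hinj).symm
        _ ≤ #((range 4).biUnion (fun i => bad k (2 ^ i * y') H' ck)) := Finset.card_le_card himg
        _ ≤ _ := Finset.card_biUnion_le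
    have h2 : (#J' : ℝ) ≤ ∑ i ∈ range 4, (#(bad k (2 ^ i * y') H' ck) : ℝ) := by exact_mod_cast h1
    refine h2.trans ?_
    calc ∑ i ∈ range 4, (#(bad k (2 ^ i * y') H' ck) : ℝ)
        ≤ ∑ i ∈ range 4, (2 : ℝ) ^ i * (y' / (H' * (L / 2) ^ (U + 1))) :=
          Finset.sum_le_sum (fun i hi => hbadk i (mem_range.mp hi))
      _ = 15 * (y' / (H' * (L / 2) ^ (U + 1))) := by
          rw [← Finset.sum_mul]
          norm_num [Finset.sum_range_succ]
  have hfinal : 15 * ((y' : ℝ) / (H' * (L / 2) ^ (U + 1))) ≤ y / (H * L ^ U) / 2 := by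
    have h1 : (y' : ℝ) / (H' * (L / 2) ^ (U + 1)) ≤ (y / (2 * L)) / ((c0 * H / (4 * L)) * (L / 2) ^ (U + 1)) := by
      gcongr
    have h2 : (y / (2 * L)) / ((c0 * H / (4 * L)) * (L / 2) ^ (U + 1)) = (2 * 2 ^ (U + 1) / (c0 * L)) * (y / (H * L ^ U)) := by
      rw [div_pow, pow_succ L U]
      field_simp
      ring
    have h3 : 2 * 2 ^ (U + 1) / (c0 * L) ≤ 1 / 30 := by
      rw [div_le_div_iff₀ (by positivity) (by norm_num)]
      have h4 : 60 * 2 ^ (U + 1) / c0 ≤ L := by linarith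
      rw [div_le_iff₀ hc0] at h4
      linarith
    have h5 : 0 ≤ (y : ℝ) / (H * L ^ U) := by positivity
    calc 15 * ((y' : ℝ) / (H' * (L / 2) ^ (U + 1))) ≤ 15 * ((2 * 2 ^ (U + 1) / (c0 * L)) * (y / (H * L ^ U))) := by
          rw [← h2]
          gcongr
      _ ≤ 15 * ((1 / 30) * (y / (H * L ^ U))) := by gcongr
      _ = y / (H * L ^ U) / 2 := by ring
  have hB0c : (#B0 : ℝ) ≤ y / (H * L ^ U) / 2 := by
    refine (ev0 H hH hHy).trans ?_
    have h1 : (2 : ℝ) ≤ L := by linarith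
    rw [div_div, pow_succ]
    apply div_le_div_of_nonneg_left hy0.le (by positivity)
    calc (H : ℝ) * L ^ U * 2 ≤ H * L ^ U * L := by gcongr
      _ = H * (L ^ U * L) := by ring
  have hJc : #J ≤ #J' + #B0 := by
    rw [hJ']
    have := Finset.card_le_card_sdiff_add_card (s := J) (t := B0)
    exact this
  have hJc' : (#J : ℝ) ≤ #J' + #B0 := by exact_mod_cast hJc
  linarith

theorem blocks (k : ℕ) : BL k := by
  induction k with
  | zero => exact BL0
  | succ k ih => exact BL_succ k ih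

end Pool.Agent.V5helper50.PW
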