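import Mathlib
import Pool.Agent.H197R2.PG4
import Pool.Agent.H262R2.UK.Pair

/-!
# Sums `a + q` in a short interval: the second moment

`a` runs through an arbitrary finite set, `q` through primes. The upper bound for prime pairs with arbitrary
differences is `Pool.Agent.H262R2.UK.pair_bound`.
-/

set_option autoImplicit false

namespace Pool.Agent.V5helper50.PW

open Finset Filter
open Pool.Agent.H197R2.PG (gg one_le_gg)

/-- a partial product of `1 - 1/n²` -/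
lemma prod_Icc (N : ℕ) (hN : 1 ≤ N) : ∏ n ∈ Icc 2 N, (1 - ((n : ℝ) ^ 2)⁻¹) = ((N : ℝ) + 1) / (2 * N) := by
  induction N, hN using Nat.le_induction with
  | base => norm_num
  | succ N hN ih =>
    rw [Finset.prod_Icc_succ_top (by omega), ih]
    have h1 : (0 : ℝ) < N := by exact_mod_cast hN
    have h2 : (0 : ℝ) < (N : ℝ) + 1 := by linarith
    push_cast
    field_simp
    ring

lemma prod_ge (s : Finset ℕ) (hs : ∀ p ∈ s, 2 ≤ p) : 1 / 2 ≤ ∏ p ∈ s, (1 - ((p : ℝ) ^ 2)⁻¹) := by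
  classical
  obtain ⟨N, hN1, hN⟩ : ∃ N, 1 ≤ N ∧ s ⊆ Icc 2 N := by
    refine ⟨s.sup id + 1, by omega, ?_⟩
    intro p hp
    rw [mem_Icc]
    have : p ≤ s.sup id := Finset.le_sup (f := id) hp
    exact ⟨hs p hp, by omega⟩
  have h1 : ∀ p ∈ Icc 2 N, 0 ≤ (1 - ((p : ℝ) ^ 2)⁻¹) ∧ (1 - ((p : ℝ) ^ 2)⁻¹) ≤ 1 := by
    intro p hp
    rw [mem_Icc] at hp
    have h2 : (2 : ℝ) ≤ p := by exact_mod_cast hp.1
    have h3 : 0 ≤ ((p : ℝ) ^ 2)⁻¹ := by positivity
    have h4 : ((p : ℝ) ^ 2)⁻¹ ≤ 1 := by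
      apply inv_le_one_of_one_le₀
      nlinarith
    constructor <;> linarith
  have h5 : ∏ p ∈ Icc 2 N, (1 - ((p : ℝ) ^ 2)⁻¹) ≤ ∏ p ∈ s, (1 - ((p : ℝ) ^ 2)⁻¹) := by
    rw [← Finset.prod_sdiff hN]
    have h6 : ∏ p ∈ Icc 2 N \ s, (1 - ((p : ℝ) ^ 2)⁻¹) ≤ 1 := by
      apply Finset.prod_le_one
      · intro p hp
        exact (h1 p (mem_sdiff.mp hp).1).1
      · intro p hp
        exact (h1 p (mem_sdiff.mp hp).1).2
    have h7 : 0 ≤ ∏ p ∈ s, (1 - ((p : ℝ) ^ 2)⁻¹) := Finset.prod_nonneg (fun p hp => (h1 p (hN hp)).1)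
    calc _ ≤ 1 * ∏ p ∈ s, (1 - ((p : ℝ) ^ 2)⁻¹) := mul_le_mul_of_nonneg_right h6 h7
      _ = _ := one_mul _
  refine le_trans ?_ h5
  rw [prod_Icc N hN1, div_le_div_iff₀ (by norm_num) (by positivity)]
  linarith

lemma rat_le_gg (n : ℕ) (hn : 0 < n) : Pool.Agent.H646.rat n ≤ 2 * gg (2 * n) := by
  classical
  have h1 : gg n ≤ gg (2 * n) := by
    unfold gg
    rw [← Finset.prod_sdiff (Nat.primeFactors_mono (dvd_mul_left n 2) (by omega))]
    have h2 : 1 ≤ ∏ p ∈ (2 * n).primeFactors \ n.primeFactors, (1 + 1 / (p : ℝ)) := by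
      have h1 : ∀ s : Finset ℕ, (1 : ℝ) ≤ ∏ p ∈ s, (1 + 1 / (p : ℝ)) := by
        intro s
        induction s using Finset.induction_on with
        | empty => simp
        | insert a s ha ih =>
          rw [Finset.prod_insert ha]
          have h2 : (1 : ℝ) ≤ 1 + 1 / (a : ℝ) := by
            have : (0 : ℝ) ≤ 1 / (a : ℝ) := by positivity
            linarith
          calc (1 : ℝ) = 1 * 1 := by ring
            _ ≤ _ := mul_le_mul h2 ih (by norm_num) (by linarith)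
      exact h1 _
    have h3 : 0 ≤ ∏ p ∈ n.primeFactors, (1 + 1 / (p : ℝ)) := Finset.prod_nonneg (fun p _ => by positivity)
    calc ∏ p ∈ n.primeFactors, (1 + 1 / (p : ℝ)) = 1 * ∏ p ∈ n.primeFactors, (1 + 1 / (p : ℝ)) := (one_mul _).symm
      _ ≤ _ := mul_le_mul_of_nonneg_right h2 h3
  have h4 : Pool.Agent.H646.rat n * ∏ p ∈ n.primeFactors, (1 - ((p : ℝ) ^ 2)⁻¹) = gg n := by
    rw [Pool.Agent.H646.Sv3M.rat_eq hn, ← Finset.prod_mul_distrib]
    unfold gg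
    apply Finset.prod_congr rfl
    intro p hp
    have hpp := Nat.prime_of_mem_primeFactors hp
    have h5 : (2 : ℝ) ≤ p := by exact_mod_cast hpp.two_le
    have h6 : (1 : ℝ) - (p : ℝ)⁻¹ ≠ 0 := by
      have : (p : ℝ)⁻¹ ≤ 1 / 2 := by
        rw [inv_eq_one_div]
        exact one_div_le_one_div_of_le (by norm_num) h5
      linarith
    have h7 : (1 : ℝ) - ((p : ℝ) ^ 2)⁻¹ = (1 - (p : ℝ)⁻¹) * (1 + (p : ℝ)⁻¹) := by
      rw [← inv_pow]
      ring
    rw [h7, inv_mul_cancel_left₀ h6, one_div]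
  have h5 := prod_ge n.primeFactors (fun p hp => (Nat.prime_of_mem_primeFactors hp).two_le)
  have h6 : 0 ≤ Pool.Agent.H646.rat n := by
    unfold Pool.Agent.H646.rat
    positivity
  nlinarith

/-- **Second moment.** -/
theorem second : ∃ C : ℝ, 1 ≤ C ∧ ∃ h₀ : ℕ, ∀ (x h : ℕ) (A Q : Finset ℕ), h₀ ≤ h → (∀ a ∈ A, a ≤ x) →
    (∀ q ∈ Q, q.Prime) →
    ((#((A ×ˢ Q).filter (fun z => x < z.1 + z.2 ∧ z.1 + z.2 ≤ x + h)) : ℝ)) ^ 2 ≤
      #(((A ×ˢ Q).filter (fun z => x < z.1 + z.2 ∧ z.1 + z.2 ≤ x + h)).image (fun z => z.1 + z.2)) *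
        (#((A ×ˢ Q).filter (fun z => x < z.1 + z.2 ∧ z.1 + z.2 ≤ x + h)) +
          C * (∑ z ∈ A.offDiag, gg (2 * Nat.dist z.1 z.2)) * h / Real.log h ^ 2) := by
  classical
  obtain ⟨C, hC, h₀, hpb⟩ := Pool.Agent.H262R2.UK.pair_bound
  refine ⟨2 * C + 1, by linarith, max h₀ 2, ?_⟩
  intro x h A Q hh hA hQ
  have hh0 : h₀ ≤ h := (le_max_left _ _).trans hh
  have hh2 : 2 ≤ h := (le_max_right _ _).trans hh
  set P := (A ×ˢ Q).filter (fun z => x < z.1 + z.2 ∧ z.1 + z.2 ≤ x + h) with hP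
  set f : ℕ × ℕ → ℕ := fun z => z.1 + z.2 with hf
  set I := P.image f with hI
  set r : ℕ → ℕ := fun m => #(P.filter (fun z => f z = m)) with hr
  have hcardP : #P = ∑ m ∈ I, r m := Finset.card_eq_sum_card_image f P
  have hCS : (#P : ℝ) ^ 2 ≤ #I * ∑ m ∈ I, (r m : ℝ) ^ 2 := by
    rw [hcardP]
    push_cast
    exact sq_sum_le_card_mul_sum_sq
  -- the set of pairs with first components `a`, `b`
  set W : ℕ × ℕ → Finset (ℕ × ℕ) := fun t => (Q ×ˢ Q).filter (fun s => t.1 + s.1 = t.2 + s.2 ∧ x < t.1 + s.1 ∧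
    t.1 + s.1 ≤ x + h) with hW
  have e1 : ∑ m ∈ I, (r m) ^ 2 = #((P ×ˢ P).filter (fun w => f w.1 = f w.2)) := by
    have h1 : ∑ m ∈ I, (r m) ^ 2 = ∑ z ∈ P, r (f z) := by
      rw [Finset.sum_comp r f]
      apply Finset.sum_congr rfl
      intro m _
      rw [smul_eq_mul, sq]
    rw [h1, Finset.card_filter, Finset.sum_product]
    apply Finset.sum_congr rfl
    intro z _
    simp only [hr, Finset.card_filter]
    apply Finset.sum_congr rfl
    intro w _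
    simp only [eq_comm]
  have e2 : #((P ×ˢ P).filter (fun w => f w.1 = f w.2)) ≤ ∑ t ∈ A ×ˢ A, #(W t) := by
    have h1 : ∑ t ∈ A ×ˢ A, #(W t) = #((A ×ˢ A).sigma W) := (Finset.card_sigma _ _).symm
    rw [h1]
    apply Finset.card_le_card_of_injOn (fun w => (⟨(w.1.1, w.2.1), (w.1.2, w.2.2)⟩ : Σ _ : ℕ × ℕ, ℕ × ℕ))
    · intro w hw
      simp only [coe_filter, mem_product, Set.mem_ofPred_eq, hP, mem_filter, hf] at hw
      simp only [coe_sigma, Set.mem_sigma_iff, mem_coe, mem_product, hW, mem_filter]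
      obtain ⟨⟨⟨⟨h1, h2⟩, h3, h4⟩, ⟨⟨h5, h6⟩, h7, h8⟩⟩, h9⟩ := hw
      exact ⟨⟨h1, h5⟩, ⟨h2, h6⟩, h9, h3, h4⟩
    · intro w _ w' _ hww
      simp only [Sigma.mk.injEq, Prod.mk.injEq, heq_eq_eq] at hww
      obtain ⟨⟨h1, h2⟩, h3, h4⟩ := hww
      exact Prod.ext (Prod.ext h1 h3) (Prod.ext h2 h4)
  have e3 : ∑ t ∈ A ×ˢ A, #(W t) = ∑ t ∈ A.diag, #(W t) + ∑ t ∈ A.offDiag, #(W t) := by
    rw [← Finset.diag_union_offDiag, Finset.sum_union (Finset.disjoint_diag_offDiag A)]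
  have e4 : ∑ t ∈ A.diag, #(W t) ≤ #P := by
    have h1 : ∑ t ∈ A.diag, #(W t) = #(A.diag.sigma W) := (Finset.card_sigma _ _).symm
    rw [h1]
    apply Finset.card_le_card_of_injOn (fun w => (w.1.1, w.2.1))
    · intro w hw
      simp only [coe_sigma, Set.mem_sigma_iff, mem_coe, mem_diag, hW, mem_filter, mem_product] at hw
      simp only [mem_coe, hP, mem_filter, mem_product]
      obtain ⟨⟨h1, h2⟩, ⟨h3, h4⟩, h5, h6, h7⟩ := hw
      exact ⟨⟨h1, h3⟩, h6, h7⟩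
    · intro w hw w' hw' hww
      simp only [coe_sigma, Set.mem_sigma_iff, mem_coe, mem_diag, hW, mem_filter, mem_product] at hw hw'
      simp only [Prod.mk.injEq] at hww
      obtain ⟨⟨h1, h2⟩, ⟨h3, h4⟩, h5, h6, h7⟩ := hw
      obtain ⟨⟨h1', h2'⟩, ⟨h3', h4'⟩, h5', h6', h7'⟩ := hw'
      obtain ⟨k1, k2⟩ := hww
      rcases w with ⟨⟨w1, w2⟩, ⟨w3, w4⟩⟩
      rcases w' with ⟨⟨v1, v2⟩, ⟨v3, v4⟩⟩
      simp only at *
      subst k1 k2 h2 h2'
      have : w4 = v4 := by omega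
      subst this
      rfl
  have e6 : ∀ t ∈ A.offDiag, (#(W t) : ℝ) ≤ (2 * C + 1) * gg (2 * Nat.dist t.1 t.2) * h / Real.log h ^ 2 := by
    intro t ht
    rw [mem_offDiag] at ht
    obtain ⟨ht1, ht2, ht3⟩ := ht
    have ha1 := hA _ ht1
    have ha2 := hA _ ht2
    have hd0 : 0 < Nat.dist t.1 t.2 := Nat.dist_pos_of_ne ht3
    -- `u = x - max`, `v = x - min`
    have key : ∀ u v : ℕ, (u = x - t.1 ∧ v = x - t.2 ∨ u = x - t.2 ∧ v = x - t.1) →
        #(W t) ≤ #{n ∈ Icc 1 h | (n + u).Prime ∧ (n + v).Prime} := by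
      intro u v huv
      apply Finset.card_le_card_of_injOn (fun s => t.1 + s.1 - x)
      · intro s hs
        simp only [hW, coe_filter, Set.mem_ofPred_eq, mem_product] at hs
        obtain ⟨⟨h1, h2⟩, h3, h4, h5⟩ := hs
        simp only [coe_filter, mem_Icc, Set.mem_ofPred_eq]
        have p1 := hQ _ h1
        have p2 := hQ _ h2
        have q1 : t.1 + s.1 - x + (x - t.1) = s.1 := by omega
        have q2 : t.1 + s.1 - x + (x - t.2) = s.2 := by omega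
        refine ⟨by omega, ?_⟩
        rcases huv with ⟨rfl, rfl⟩ | ⟨rfl, rfl⟩
        · rw [q1, q2]; exact ⟨p1, p2⟩
        · rw [q1, q2]; exact ⟨p2, p1⟩
      · intro s hs s' hs' hss
        simp only [hW, coe_filter, Set.mem_ofPred_eq, mem_product] at hs hs'
        simp only at hss
        obtain ⟨⟨h1, h2⟩, h3, h4, h5⟩ := hs
        obtain ⟨⟨h1', h2'⟩, h3', h4', h5'⟩ := hs'
        exact Prod.ext (by omega) (by omega)
    have hlog : 0 < Real.log h := Real.log_pos (by exact_mod_cast (by omega : 1 < h))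
    have hgg := one_le_gg (2 * Nat.dist t.1 t.2)
    have hfin : ∀ u v : ℕ, (u = x - t.1 ∧ v = x - t.2 ∨ u = x - t.2 ∧ v = x - t.1) → u < v →
        v - u = Nat.dist t.1 t.2 → (#(W t) : ℝ) ≤ (2 * C + 1) * gg (2 * Nat.dist t.1 t.2) * h / Real.log h ^ 2 := by
      intro u v huv huv2 hvu
      have h1 := key u v huv
      have h2 := hpb h hh0 u v huv2
      rw [hvu] at h2
      have h3 := rat_le_gg _ hd0
      calc (#(W t) : ℝ) ≤ (#{n ∈ Icc 1 h | (n + u).Prime ∧ (n + v).Prime} : ℝ) := by exact_mod_cast h1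
        _ ≤ C * h / (Real.log h) ^ 2 * Pool.Agent.H646.rat (Nat.dist t.1 t.2) := h2
        _ ≤ C * h / (Real.log h) ^ 2 * (2 * gg (2 * Nat.dist t.1 t.2)) := by gcongr
        _ = (2 * C) * gg (2 * Nat.dist t.1 t.2) * h / Real.log h ^ 2 := by ring
        _ ≤ _ := by
            gcongr
            linarith
    rcases lt_or_gt_of_ne ht3 with h | h
    · apply hfin (x - t.2) (x - t.1) (Or.inr ⟨rfl, rfl⟩) (by omega)
      rw [Nat.dist_eq_sub_of_le h.le]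
      omega
    · apply hfin (x - t.1) (x - t.2) (Or.inl ⟨rfl, rfl⟩) (by omega)
      rw [Nat.dist_eq_sub_of_le_right h.le]
      omega
  have e9 : ∑ t ∈ A.offDiag, (#(W t) : ℝ) ≤
      (2 * C + 1) * (∑ z ∈ A.offDiag, gg (2 * Nat.dist z.1 z.2)) * h / Real.log h ^ 2 := by
    have e10 : (2 * C + 1) * (∑ z ∈ A.offDiag, gg (2 * Nat.dist z.1 z.2)) * h / Real.log h ^ 2 =
        ∑ z ∈ A.offDiag, (2 * C + 1) * gg (2 * Nat.dist z.1 z.2) * h / Real.log h ^ 2 := by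
      rw [Finset.mul_sum, Finset.sum_mul, Finset.sum_div]
    rw [e10]
    exact Finset.sum_le_sum e6
  have hmom : ∑ m ∈ I, (r m : ℝ) ^ 2 ≤ #P +
      (2 * C + 1) * (∑ z ∈ A.offDiag, gg (2 * Nat.dist z.1 z.2)) * h / Real.log h ^ 2 := by
    have e7 : ∑ m ∈ I, (r m : ℝ) ^ 2 = ((∑ m ∈ I, (r m) ^ 2 : ℕ) : ℝ) := by push_cast; rfl
    have e8 : ((∑ m ∈ I, (r m) ^ 2 : ℕ) : ℝ) ≤ ((#P + ∑ t ∈ A.offDiag, #(W t) : ℕ) : ℝ) := by
      rw [e1]
      exact_mod_cast e2.trans (by rw [e3]; exact Nat.add_le_add_right e4 _)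
    rw [e7]
    refine e8.trans ?_
    push_cast
    linarith
  refine hCS.trans ?_
  exact mul_le_mul_of_nonneg_left hmom (Nat.cast_nonneg _)

end Pool.Agent.V5helper50.PW
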