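import Mathlib
import Pool.Agent.V5helper50.PW.Blk
import Pool.Agent.V5helper50.PW.Sec
import Pool.Agent.H295R3.Hoheisel

/-!
# Sums of a prime and a `k`-fold prime-indexed prime in all intervals of length `x ^ θ`, `θ < 1 / 6`
-/

set_option autoImplicit false

namespace Pool.Agent.V5helper50.PW

open Finset Filter
open Pool.Agent.H197R2.PG (PI gg one_le_gg)

/-- the pairs with sum in the window: first moment -/
lemma first (k x y h H : ℕ) (c1 : ℝ) (Q : Finset ℕ) (hc1 : 0 < c1) (hH0 : 0 < H) (hHh : 2 * H ≤ h) (hhy : h ≤ y)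
    (hyx : 8 * y ≤ x) (hy3 : 3 ≤ y) (hQ : ∀ q ∈ Q, x - 2 * y < q ∧ q ≤ x - y) :
    ((#Q : ℝ) - H * (#(bad k y H c1) + #(bad k (2 * y) H c1))) * (c1 * H / Real.log x ^ (k + 1)) ≤
      #((SS k 0 (3 * y) ×ˢ Q).filter (fun z => x < z.1 + z.2 ∧ z.1 + z.2 ≤ x + h)) := by
  classical
  set B := bad k y H c1 ∪ bad k (2 * y) H c1 with hB
  set jj : ℕ → ℕ := fun q => (x - q + (H - 1)) / H with hjj
  have hj1 : ∀ q, x - q ≤ jj q * H := by
    intro q
    have h1 := Nat.lt_div_mul_add (a := x - q + (H - 1)) hH0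
    simp only [hjj]
    omega
  have hj2 : ∀ q, jj q * H ≤ x - q + (H - 1) := fun q => Nat.div_mul_le_self _ _
  set Q' := Q.filter (fun q => jj q ∉ B) with hQ'
  set Q'' := Q.filter (fun q => ¬ jj q ∉ B) with hQ''
  have hcard : #Q' + #Q'' = #Q := Finset.card_filter_add_card_filter_not _
  have hQ''c : #Q'' ≤ #B * H := by
    have h1 : Q'' ⊆ B.biUnion (fun j => Ico (x - j * H) (x - j * H + H)) := by
      intro q hq
      rw [hQ'', mem_filter, not_not] at hq
      have h2 := hQ q hq.1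
      have h3 := hj1 q
      have h4 := hj2 q
      rw [mem_biUnion]
      refine ⟨jj q, hq.2, ?_⟩
      rw [mem_Ico]
      omega
    calc #Q'' ≤ #(B.biUnion (fun j => Ico (x - j * H) (x - j * H + H))) := Finset.card_le_card h1
      _ ≤ #B * H := by
          apply Finset.card_biUnion_le_card_mul
          intro j _
          rw [Nat.card_Ico]
          omega
  have hBc : #B ≤ #(bad k y H c1) + #(bad k (2 * y) H c1) := Finset.card_union_le _ _
  have hQ'c : (#Q : ℝ) - H * (#(bad k y H c1) + #(bad k (2 * y) H c1)) ≤ #Q' := by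
    have h1 : (#Q' : ℝ) + #Q'' = #Q := by exact_mod_cast hcard
    have h2 : (#Q'' : ℝ) ≤ H * (#(bad k y H c1) + #(bad k (2 * y) H c1)) := by
      have : #Q'' ≤ H * (#(bad k y H c1) + #(bad k (2 * y) H c1)) := by
        calc #Q'' ≤ #B * H := hQ''c
          _ ≤ (#(bad k y H c1) + #(bad k (2 * y) H c1)) * H := Nat.mul_le_mul_right _ hBc
          _ = _ := Nat.mul_comm _ _
      exact_mod_cast this
    linarith
  have hx0 : (0 : ℝ) < x := by
    have : 0 < x := by omega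
    exact_mod_cast this
  have hlogx : 0 < Real.log x := Real.log_pos (by exact_mod_cast (by omega : 1 < x))
  -- each good `q` contributes
  have hgood : ∀ q ∈ Q', c1 * H / Real.log x ^ (k + 1) ≤ #(SS k (x - q) (x - q + h)) := by
    intro q hq
    rw [hQ', mem_filter] at hq
    obtain ⟨hq1, hq2⟩ := hq
    have h2 := hQ q hq1
    have h3 := hj1 q
    have h4 := hj2 q
    rw [hB, mem_union, not_or, mem_bad hH0, mem_bad hH0] at hq2
    have h5 : #(SS k (jj q * H) (jj q * H + H)) ≤ #(SS k (x - q) (x - q + h)) := card_mono h3 (by omega)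
    have h5' : (#(SS k (jj q * H) (jj q * H + H)) : ℝ) ≤ #(SS k (x - q) (x - q + h)) := by exact_mod_cast h5
    refine le_trans ?_ h5'
    have hyr : (y : ℝ) ≤ x := by exact_mod_cast (by omega : y ≤ x)
    have h2yr : ((2 * y : ℕ) : ℝ) ≤ x := by exact_mod_cast (by omega : 2 * y ≤ x)
    have hy1 : (1 : ℝ) < y := by exact_mod_cast (by omega : 1 < y)
    have h2y1 : (1 : ℝ) < ((2 * y : ℕ) : ℝ) := by exact_mod_cast (by omega : 1 < 2 * y)
    rcases Nat.lt_or_ge (jj q * H) (2 * y) with h6 | h6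
    · have h7 : c1 * H / Real.log y ^ (k + 1) ≤ #(SS k (jj q * H) (jj q * H + H)) := by
        by_contra hcon
        push Not at hcon
        exact hq2.1 ⟨by omega, h6, hcon⟩
      refine le_trans ?_ h7
      have h8 : Real.log y ≤ Real.log x := Real.log_le_log (by linarith) hyr
      have h9 : 0 < Real.log y := Real.log_pos hy1
      gcongr
    · have h7 : c1 * H / Real.log ((2 * y : ℕ) : ℝ) ^ (k + 1) ≤ #(SS k (jj q * H) (jj q * H + H)) := by
        by_contra hcon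
        push Not at hcon
        exact hq2.2 ⟨h6, by omega, hcon⟩
      refine le_trans ?_ h7
      have h8 : Real.log ((2 * y : ℕ) : ℝ) ≤ Real.log x := Real.log_le_log (by linarith) h2yr
      have h9 : 0 < Real.log ((2 * y : ℕ) : ℝ) := Real.log_pos h2y1
      gcongr
  have hPsum : ∑ q ∈ Q', #(SS k (x - q) (x - q + h)) ≤
      #((SS k 0 (3 * y) ×ˢ Q).filter (fun z => x < z.1 + z.2 ∧ z.1 + z.2 ≤ x + h)) := by
    rw [← Finset.card_sigma]
    apply Finset.card_le_card_of_injOn (fun w : (Σ _ : ℕ, ℕ) => (w.2, w.1))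
    · intro w hw
      rw [mem_coe, mem_sigma] at hw
      obtain ⟨h1, h2⟩ := hw
      rw [hQ', mem_filter] at h1
      rw [mem_SS] at h2
      have h3 := hQ _ h1.1
      rw [mem_coe, mem_filter, mem_product, mem_SS]
      obtain ⟨⟨h21, h22⟩, h23⟩ := h2
      obtain ⟨h31, h32⟩ := h3
      have e1 : 0 < w.2 := by omega
      have e2 : w.2 ≤ 3 * y := by omega
      have e3 : x < w.2 + w.1 := by omega
      have e4 : w.2 + w.1 ≤ x + h := by omega
      exact ⟨⟨⟨⟨e1, e2⟩, h23⟩, h1.1⟩, e3, e4⟩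
    · rintro ⟨a, b⟩ _ ⟨c, d⟩ _ h
      simp only [Prod.mk.injEq] at h
      obtain ⟨rfl, rfl⟩ := h
      rfl
  have hPsum' : (∑ q ∈ Q', (#(SS k (x - q) (x - q + h)) : ℝ)) ≤
      #((SS k 0 (3 * y) ×ˢ Q).filter (fun z => x < z.1 + z.2 ∧ z.1 + z.2 ≤ x + h)) := by exact_mod_cast hPsum
  refine le_trans ?_ hPsum'
  calc ((#Q : ℝ) - H * (#(bad k y H c1) + #(bad k (2 * y) H c1))) * (c1 * H / Real.log x ^ (k + 1))
      ≤ #Q' * (c1 * H / Real.log x ^ (k + 1)) := by
        apply mul_le_mul_of_nonneg_right hQ'c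
        positivity
    _ = #Q' • (c1 * H / Real.log x ^ (k + 1)) := by rw [nsmul_eq_mul]
    _ ≤ _ := Finset.card_nsmul_le_sum _ _ _ hgood

theorem window : ∃ δ : ℝ, 0 < δ ∧ δ < 1 ∧ ∀ k : ℕ, ∃ c : ℝ, 0 < c ∧ ∀ᶠ x : ℕ in atTop, ∀ h : ℕ,
    (x : ℝ) ^ (1 / 6 - δ / 24) ≤ h → (h : ℝ) ≤ (x : ℝ) ^ (1 / 2 : ℝ) → ∃ T : Finset ℕ, T ⊆ Ioc x (x + h) ∧
      (∀ N ∈ T, ∃ p q : ℕ, PI k p ∧ (p : ℝ) ≤ (x : ℝ) ^ (1 - δ / 4) ∧ q.Prime ∧ 3 ≤ q ∧ p + q = N) ∧
      c * h / Real.log (Real.log (Real.log x)) ≤ #T := by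
  classical
  obtain ⟨δ, η, hδ, hδ1, hη, X₀, hX₀, hoh⟩ := Pool.Agent.H295R3.D.hoheisel
  refine ⟨δ, hδ, hδ1, fun k => ?_⟩
  obtain ⟨c1, hc1, hc11, evb⟩ := blocks k (δ / 24) (by linarith) (by linarith) 2
  obtain ⟨CA, hCA, evA⟩ := upper k
  obtain ⟨B, y0, hB⟩ := Pool.Agent.H197R2.PG.PI_density k
  obtain ⟨C1, hC1, hpa⟩ := Pool.Agent.H197R2.PG.pair_avg
  obtain ⟨C2, hC2, h0, hsm⟩ := second
  set E : ℝ := Real.exp (B + 1) with hE
  have hE0 : 0 < E := Real.exp_pos _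
  set c2 : ℝ := η * c1 / 6 with hc2
  have hc20 : 0 < c2 := by positivity
  set D : ℝ := C2 * (C1 * E * 2 * (3 * 2 ^ (k + 1) * CA) ^ 2) * 64 with hD
  have hD0 : 0 < D := by positivity
  refine ⟨1 / (1 + D / c2 ^ 2), by positivity, ?_⟩
  -- the size `y`
  have hcast := tendsto_natCast_atTop_atTop (R := ℝ)
  set yf : ℕ → ℕ := fun x => ⌊(x : ℝ) ^ (1 - δ / 2)⌋₊ with hyf
  have ty : Tendsto yf atTop atTop :=
    tendsto_nat_floor_atTop.comp ((tendsto_rpow_atTop (by linarith : 0 < 1 - δ / 2)).comp hcast)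
  have ty2 : Tendsto (fun x => 2 * yf x) atTop atTop := by
    apply tendsto_atTop_mono (fun n => ?_) ty
    omega
  have ty3 : Tendsto (fun x => 3 * yf x) atTop atTop := by
    apply tendsto_atTop_mono (fun n => ?_) ty
    omega
  have hlogt : Tendsto (fun x : ℕ => Real.log (x : ℝ)) atTop atTop := Real.tendsto_log_atTop.comp hcast
  have hll : Tendsto (fun x : ℕ => Real.log (Real.log (x : ℝ))) atTop atTop := Real.tendsto_log_atTop.comp hlogt
  have hlll : Tendsto (fun x : ℕ => Real.log (Real.log (Real.log (x : ℝ)))) atTop atTop :=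
    Real.tendsto_log_atTop.comp hll
  have hp : ∀ (a b : ℝ), 0 < a → ∀ᶠ x : ℕ in atTop, b ≤ (x : ℝ) ^ a := fun a b ha =>
    ((tendsto_rpow_atTop ha).comp hcast).eventually_ge_atTop b
  filter_upwards [ty.eventually evb, ty2.eventually evb, ty3.eventually evA, ty3.eventually_ge_atTop y0,
    hp (δ / 2) 8 (by linarith), hp ((1 - δ) / 2) 2 (by linarith), hp (δ ^ 2 / 48) 6 (by positivity),
    hlogt.eventually_ge_atTop (24 / η + 1), hll.eventually_ge_atTop 3, hlll.eventually_ge_atTop 1,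
    log_le_rpow (a := 1 / 4) (by norm_num) (k + 2), hp (1 / 4) (1 / c2) (by norm_num),
    hp (1 / 8) (h0 + 3) (by norm_num), eventually_ge_atTop (2 * X₀ + 10), ty.eventually_ge_atTop 3,
    hp (δ / 4) 3 (by linarith)]
    with x b1 b2 evA hy03 p1 p2 p3 hL1 hL2 hL3 q1 q2 q3 hxX hy3' p4 h hh1 hh2
  set y := yf x with hy
  set L := Real.log (x : ℝ) with hL
  have hx10 : (10 : ℝ) ≤ x := by exact_mod_cast (by omega : 10 ≤ x)
  have hx0 : (0 : ℝ) < x := by linarith
  have hL0 : 0 < L := by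
    have : 0 < 24 / η := by positivity
    linarith
  have hL1' : 1 ≤ L := by
    have : 0 < 24 / η := by positivity
    linarith
  have hyle : (y : ℝ) ≤ (x : ℝ) ^ (1 - δ / 2) := Nat.floor_le (by positivity)
  have hylt : (x : ℝ) ^ (1 - δ / 2) < y + 1 := Nat.lt_floor_add_one _
  -- (2)
  have hxhalf1 : (1 : ℝ) ≤ (x : ℝ) ^ (1 / 2 : ℝ) := Real.one_le_rpow (by linarith) (by norm_num)
  have g2 : (x : ℝ) ^ (1 / 2 : ℝ) ≤ y := by
    have e1 : (x : ℝ) ^ (1 - δ / 2) = (x : ℝ) ^ (1 / 2 : ℝ) * (x : ℝ) ^ ((1 - δ) / 2) := by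
      rw [← Real.rpow_add hx0]
      congr 1
      ring
    have : 2 * (x : ℝ) ^ (1 / 2 : ℝ) ≤ (x : ℝ) ^ (1 - δ / 2) := by
      rw [e1]
      nlinarith
    linarith
  have hy0 : (0 : ℝ) < y := by linarith
  have hy3 : 3 ≤ y := hy3'
  -- (3)
  have g3 : 8 * (y : ℝ) ≤ x := by
    have e1 : (x : ℝ) ^ (1 - δ / 2) * (x : ℝ) ^ (δ / 2) = x := by
      rw [← Real.rpow_add hx0]
      rw [show 1 - δ / 2 + δ / 2 = 1 by ring, Real.rpow_one]
    have e2 : 0 < (x : ℝ) ^ (1 - δ / 2) := Real.rpow_pos_of_pos hx0 _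
    nlinarith
  have g3' : 8 * y ≤ x := by exact_mod_cast g3
  -- (4)
  have g4 : ((x - 2 * y : ℕ) : ℝ) ^ (1 - δ) ≤ y := by
    have e1 : (x : ℝ) ^ (1 - δ / 2) = (x : ℝ) ^ (1 - δ) * (x : ℝ) ^ (δ / 2) := by
      rw [← Real.rpow_add hx0]
      congr 1
      ring
    have e2 : (1 : ℝ) ≤ (x : ℝ) ^ (1 - δ) := Real.one_le_rpow (by linarith) (by linarith)
    have e3 : ((x - 2 * y : ℕ) : ℝ) ^ (1 - δ) ≤ (x : ℝ) ^ (1 - δ) := by
      apply Real.rpow_le_rpow (Nat.cast_nonneg _) _ (by linarith)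
      exact_mod_cast Nat.sub_le _ _
    nlinarith
  -- (7)
  have g7 : L / 2 ≤ Real.log y := by
    calc L / 2 = Real.log ((x : ℝ) ^ (1 / 2 : ℝ)) := by
          rw [Real.log_rpow hx0, ← hL]
          ring
      _ ≤ Real.log y := Real.log_le_log (by linarith) g2
  -- `h` and `H`
  have hx8 : (x : ℝ) ^ (1 / 8 : ℝ) ≤ h := by
    refine le_trans ?_ hh1
    apply Real.rpow_le_rpow_of_exponent_le (by linarith)
    linarith
  have hh3 : ((h0 : ℝ) + 3) ≤ h := q3.trans hx8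
  have hh0' : h0 + 3 ≤ h := by exact_mod_cast hh3
  have hhpos : (0 : ℝ) < h := by
    have : (0 : ℝ) ≤ h0 := Nat.cast_nonneg _
    linarith
  set H := h / 2 with hH
  have hH3 : (h : ℝ) ≤ 3 * H := by
    have : h ≤ 3 * H := by omega
    exact_mod_cast this
  have hHpos : (0 : ℝ) < H := by linarith
  have hHpos' : 0 < H := by exact_mod_cast hHpos
  have hhy : h ≤ y := by
    have : (h : ℝ) ≤ y := hh2.trans g2
    exact_mod_cast this
  have g8 : L / 8 ≤ Real.log h := by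
    calc L / 8 = Real.log ((x : ℝ) ^ (1 / 8 : ℝ)) := by
          rw [Real.log_rpow hx0, ← hL]
          ring
      _ ≤ Real.log h := Real.log_le_log (by positivity) hx8
  have g6 : ((2 * y : ℕ) : ℝ) ^ (1 / 6 + δ / 24) ≤ H := by
    push_cast
    rw [Real.mul_rpow (by norm_num) hy0.le]
    have e1 : (2 : ℝ) ^ (1 / 6 + δ / 24) ≤ 2 := by
      calc (2 : ℝ) ^ (1 / 6 + δ / 24) ≤ 2 ^ (1 : ℝ) := Real.rpow_le_rpow_of_exponent_le (by norm_num) (by linarith)
        _ = 2 := Real.rpow_one 2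
    have e2 : (y : ℝ) ^ (1 / 6 + δ / 24) ≤ (x : ℝ) ^ (1 / 6 - δ / 24 - δ ^ 2 / 48) := by
      calc (y : ℝ) ^ (1 / 6 + δ / 24) ≤ ((x : ℝ) ^ (1 - δ / 2)) ^ (1 / 6 + δ / 24) :=
            Real.rpow_le_rpow hy0.le hyle (by linarith)
        _ = (x : ℝ) ^ (1 / 6 - δ / 24 - δ ^ 2 / 48) := by
            rw [← Real.rpow_mul hx0.le]
            congr 1
            ring
    have e3 : (x : ℝ) ^ (1 / 6 - δ / 24) = (x : ℝ) ^ (1 / 6 - δ / 24 - δ ^ 2 / 48) * (x : ℝ) ^ (δ ^ 2 / 48) := by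
      rw [← Real.rpow_add hx0]
      congr 1
      ring
    have e4 : 0 < (x : ℝ) ^ (1 / 6 - δ / 24 - δ ^ 2 / 48) := Real.rpow_pos_of_pos hx0 _
    have e5 : 6 * (x : ℝ) ^ (1 / 6 - δ / 24 - δ ^ 2 / 48) ≤ h := by
      rw [e3] at hh1
      nlinarith
    have e6 : 0 < (y : ℝ) ^ (1 / 6 + δ / 24) := Real.rpow_pos_of_pos hy0 _
    calc (2 : ℝ) ^ (1 / 6 + δ / 24) * (y : ℝ) ^ (1 / 6 + δ / 24) ≤ 2 * (x : ℝ) ^ (1 / 6 - δ / 24 - δ ^ 2 / 48) := by
          gcongr
      _ ≤ H := by linarith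
  have g6' : (y : ℝ) ^ (1 / 6 + δ / 24) ≤ H := by
    refine le_trans ?_ g6
    apply Real.rpow_le_rpow hy0.le _ (by linarith)
    push_cast
    linarith
  -- the primes `q`
  set Q := (Ioc (x - 2 * y) (x - 2 * y + y)).filter Nat.Prime with hQdef
  have hQc : η * y / L ≤ #Q := by
    have h1 := hoh (x - 2 * y) y (by omega) g4 (by omega)
    refine le_trans ?_ h1
    have h2 : Real.log ((x - 2 * y : ℕ) : ℝ) ≤ L := by
      apply Real.log_le_log
      · exact_mod_cast (by omega : 0 < x - 2 * y)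
      · exact_mod_cast Nat.sub_le _ _
    have h3 : 0 < Real.log ((x - 2 * y : ℕ) : ℝ) := Real.log_pos (by exact_mod_cast (by omega : 1 < x - 2 * y))
    gcongr
  have hQm : ∀ q ∈ Q, x - 2 * y < q ∧ q ≤ x - y := by
    intro q hq
    rw [hQdef, mem_filter, mem_Ioc] at hq
    omega
  have hQp : ∀ q ∈ Q, q.Prime := fun q hq => (mem_filter.mp hq).2
  have hfirst := first k x y h H c1 Q hc1 hHpos' (by omega) hhy g3' hy3 hQm
  have c1b := b1 H g6' (by omega)
  have c2b := b2 H g6 (by omega)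
  set A := SS k 0 (3 * y) with hA
  set P := (A ×ˢ Q).filter (fun z => x < z.1 + z.2 ∧ z.1 + z.2 ≤ x + h) with hP
  set F : ℝ := (#P : ℝ) with hF
  set G : ℝ := y * h / L ^ (k + 2) with hG
  have hG0 : 0 < G := by positivity
  have hFG : c2 * G ≤ F := by
    refine le_trans ?_ hfirst
    have h1 : (#(bad k y H c1) : ℝ) ≤ 4 * y / (H * L ^ 2) := by
      refine c1b.trans ?_
      calc (y : ℝ) / (H * Real.log y ^ 2) ≤ y / (H * (L / 2) ^ 2) := by gcongr
        _ = 4 * y / (H * L ^ 2) := by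
            field_simp
            ring
    have h2 : (#(bad k (2 * y) H c1) : ℝ) ≤ 8 * y / (H * L ^ 2) := by
      refine c2b.trans ?_
      have h3 : L / 2 ≤ Real.log ((2 * y : ℕ) : ℝ) := by
        refine g7.trans (Real.log_le_log hy0 ?_)
        push_cast
        linarith
      calc ((2 * y : ℕ) : ℝ) / (H * Real.log ((2 * y : ℕ) : ℝ) ^ 2) ≤ ((2 * y : ℕ) : ℝ) / (H * (L / 2) ^ 2) := by gcongr
        _ = 8 * y / (H * L ^ 2) := by
            push_cast
            field_simp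
            ring
    have h3 : (H : ℝ) * (#(bad k y H c1) + #(bad k (2 * y) H c1)) ≤ η * y / L / 2 := by
      calc (H : ℝ) * (#(bad k y H c1) + #(bad k (2 * y) H c1)) ≤ H * (4 * y / (H * L ^ 2) + 8 * y / (H * L ^ 2)) := by
            gcongr
        _ = 12 * y / L ^ 2 := by
            field_simp
            ring
        _ ≤ η * y / L / 2 := by
            rw [div_div, div_le_div_iff₀ (by positivity) (by positivity)]
            have h4 : 24 ≤ η * L := by
              have h5 : 24 / η ≤ L := by linarith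
              rw [div_le_iff₀ hη] at h5
              linarith
            calc 12 * (y : ℝ) * (L * 2) = (y * L) * 24 := by ring
              _ ≤ (y * L) * (η * L) := by gcongr
              _ = η * y * L ^ 2 := by ring
    have h4 : η * y / L / 2 ≤ (#Q : ℝ) - H * (#(bad k y H c1) + #(bad k (2 * y) H c1)) := by
      linarith
    calc c2 * G = (η * y / L / 2) * (c1 * (h / 3) / L ^ (k + 1)) := by
          rw [hc2, hG, pow_succ L (k + 1)]
          field_simp
          ring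
      _ ≤ (η * y / L / 2) * (c1 * H / L ^ (k + 1)) := by
          gcongr
          linarith
      _ ≤ _ := by
          apply mul_le_mul_of_nonneg_right h4
          positivity
  have hF0 : 0 < F := lt_of_lt_of_le (by positivity) hFG
  -- the number of elements of `A`
  have hAc : (#A : ℝ) ≤ 3 * 2 ^ (k + 1) * CA * y / L ^ (k + 1) := by
    refine evA.trans ?_
    have h3 : L / 2 ≤ Real.log ((3 * y : ℕ) : ℝ) := by
      refine g7.trans (Real.log_le_log hy0 ?_)
      push_cast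
      linarith
    calc CA * ((3 * y : ℕ) : ℝ) / Real.log ((3 * y : ℕ) : ℝ) ^ (k + 1) ≤ CA * ((3 * y : ℕ) : ℝ) / (L / 2) ^ (k + 1) := by
          gcongr
      _ = 3 * 2 ^ (k + 1) * CA * y / L ^ (k + 1) := by
          push_cast
          rw [div_pow]
          field_simp
  -- the average of the singular factor
  have hAsub : A ⊆ Icc 1 (3 * y) := by
    intro a ha
    rw [hA, mem_SS] at ha
    rw [mem_Icc]
    omega
  set kk : ℕ := ⌈Real.log L⌉₊ + 3 with hkk
  have hkk3 : 3 ≤ kk := by omega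
  have hlogL0 : 0 < Real.log L := by linarith
  have hkkge : Real.log L ≤ kk := by
    have := Nat.le_ceil (Real.log L)
    rw [hkk]
    push_cast
    linarith
  have hkkle : (kk : ℝ) ≤ Real.log L + 4 := by
    have := Nat.ceil_lt_add_one hlogL0.le
    rw [hkk]
    push_cast
    linarith
  have hkk0 : (0 : ℝ) < kk := by exact_mod_cast (by omega : 0 < kk)
  have hlogkk : Real.log kk ≤ 2 * Real.log (Real.log L) := by
    have h1 : (kk : ℝ) ≤ Real.log L ^ 2 := by nlinarith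
    have h2 : Real.log kk ≤ Real.log (Real.log L ^ 2) := Real.log_le_log hkk0 h1
    rw [Real.log_pow] at h2
    exact_mod_cast h2
  have hEk : 2 * ((3 * y : ℕ) : ℝ) ≤ E ^ kk * #A := by
    obtain ⟨S, hS1, hS2, hS3⟩ := hB (3 * y) hy03
    have hSA : #S ≤ #A := by
      apply Finset.card_le_card
      intro a ha
      have := mem_Icc.mp (hS1 ha)
      rw [hA, mem_SS]
      exact ⟨⟨by omega, this.2⟩, hS2 a ha⟩
    have hSA' : (#S : ℝ) ≤ #A := by exact_mod_cast hSA
    have h3y : Real.log ((3 * y : ℕ) : ℝ) ≤ L := by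
      apply Real.log_le_log
      · push_cast; linarith
      · push_cast; linarith
    have h3y0 : 0 ≤ Real.log ((3 * y : ℕ) : ℝ) := Real.log_natCast_nonneg _
    have h1 : L ^ B ≤ Real.exp (B * kk) := by
      calc L ^ B = Real.exp (B * Real.log L) := by
            rw [Real.exp_nat_mul, Real.exp_log hL0]
        _ ≤ Real.exp (B * kk) := by
            apply Real.exp_le_exp.mpr
            gcongr
    have h2 : (2 : ℝ) ≤ Real.exp kk := by
      have := Real.add_one_le_exp (kk : ℝ)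
      have h3 : (3 : ℝ) ≤ kk := by exact_mod_cast hkk3
      linarith
    have h3 : E ^ kk = Real.exp kk * Real.exp (B * kk) := by
      rw [hE, ← Real.exp_nat_mul, ← Real.exp_add]
      congr 1
      ring
    calc 2 * ((3 * y : ℕ) : ℝ) ≤ 2 * (#S * Real.log ((3 * y : ℕ) : ℝ) ^ B) := by gcongr
      _ ≤ 2 * (#A * L ^ B) := by gcongr
      _ = 2 * L ^ B * #A := by ring
      _ ≤ Real.exp kk * Real.exp (B * kk) * #A := by gcongr
      _ = E ^ kk * #A := by rw [h3]
  have havg := hpa kk (3 * y) A E hkk3 hAsub hE0.le hEk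
  set l3 : ℝ := Real.log (Real.log L) with hl3
  have hl31 : 1 ≤ l3 := hL3
  have hmain := hsm x h A Q (by omega) (by
    intro a ha
    have := mem_Icc.mp (hAsub ha)
    omega) hQp
  rw [← hP, ← hF] at hmain
  set I := P.image (fun z => z.1 + z.2) with hI
  set Z := ∑ z ∈ A.offDiag, gg (2 * Nat.dist z.1 z.2) with hZ
  have hZ0 : 0 ≤ Z := Finset.sum_nonneg (fun z _ => by linarith [one_le_gg (2 * Nat.dist z.1 z.2)])
  have hOD : C2 * Z * h / Real.log h ^ 2 ≤ (D / c2 ^ 2) * l3 * F ^ 2 / h := by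
    have h1 : Z ≤ C1 * E * (2 * l3) * (3 * 2 ^ (k + 1) * CA * y / L ^ (k + 1)) ^ 2 := by
      refine havg.trans ?_
      gcongr
    have h2 : C2 * Z * h / Real.log h ^ 2 ≤
        C2 * (C1 * E * (2 * l3) * (3 * 2 ^ (k + 1) * CA * y / L ^ (k + 1)) ^ 2) * h / (L / 8) ^ 2 := by
      gcongr
    have h3 : C2 * (C1 * E * (2 * l3) * (3 * 2 ^ (k + 1) * CA * y / L ^ (k + 1)) ^ 2) * h / (L / 8) ^ 2 =
        D * l3 * G ^ 2 / h := by
      rw [hD, hG, pow_succ L (k + 1)]
      field_simp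
      ring
    have h4 : G ^ 2 ≤ F ^ 2 / c2 ^ 2 := by
      rw [le_div_iff₀ (by positivity)]
      calc G ^ 2 * c2 ^ 2 = (c2 * G) ^ 2 := by ring
        _ ≤ F ^ 2 := by gcongr
    calc C2 * Z * h / Real.log h ^ 2 ≤ D * l3 * G ^ 2 / h := by
          rw [← h3]
          exact h2
      _ ≤ D * l3 * (F ^ 2 / c2 ^ 2) / h := by gcongr
      _ = (D / c2 ^ 2) * l3 * F ^ 2 / h := by ring
  have hFh : F ≤ l3 * F ^ 2 / h := by
    have h1 : (h : ℝ) ≤ F := by
      refine le_trans ?_ hFG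
      have h2 : L ^ (k + 2) ≤ c2 * y := by
        have h3 : 1 ≤ c2 * (x : ℝ) ^ (1 / 4 : ℝ) := by
          rw [div_le_iff₀ hc20] at q2
          linarith
        calc L ^ (k + 2) ≤ (x : ℝ) ^ (1 / 4 : ℝ) := q1
          _ = 1 * (x : ℝ) ^ (1 / 4 : ℝ) := (one_mul _).symm
          _ ≤ (c2 * (x : ℝ) ^ (1 / 4 : ℝ)) * (x : ℝ) ^ (1 / 4 : ℝ) := by gcongr
          _ = c2 * (x : ℝ) ^ (1 / 2 : ℝ) := by
              rw [mul_assoc, ← Real.rpow_add hx0]
              norm_num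
          _ ≤ c2 * y := by gcongr
      rw [hG, mul_div_assoc', le_div_iff₀ (by positivity)]
      calc (h : ℝ) * L ^ (k + 2) ≤ h * (c2 * y) := by gcongr
        _ = c2 * (y * h) := by ring
    rw [le_div_iff₀ hhpos]
    calc F * h ≤ F * F := by gcongr
      _ = 1 * F ^ 2 := by ring
      _ ≤ l3 * F ^ 2 := by gcongr
  have hfin : (h : ℝ) ≤ #I * ((1 + D / c2 ^ 2) * l3) := by
    have h1 : F ^ 2 ≤ #I * ((1 + D / c2 ^ 2) * l3 * F ^ 2 / h) := by
      refine hmain.trans ?_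
      apply mul_le_mul_of_nonneg_left _ (Nat.cast_nonneg _)
      calc F + C2 * Z * h / Real.log h ^ 2 ≤ l3 * F ^ 2 / h + (D / c2 ^ 2) * l3 * F ^ 2 / h := add_le_add hFh hOD
        _ = (1 + D / c2 ^ 2) * l3 * F ^ 2 / h := by ring
    have h3 : F ^ 2 * h ≤ F ^ 2 * (#I * ((1 + D / c2 ^ 2) * l3)) := by
      calc F ^ 2 * h ≤ (#I * ((1 + D / c2 ^ 2) * l3 * F ^ 2 / h)) * h := by gcongr
        _ = F ^ 2 * (#I * ((1 + D / c2 ^ 2) * l3)) := by field_simp
    exact le_of_mul_le_mul_left h3 (by positivity)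
  refine ⟨I, ?_, ?_, ?_⟩
  · intro m hm
    obtain ⟨z, hz, rfl⟩ := mem_image.mp hm
    rw [hP, mem_filter] at hz
    rw [mem_Ioc]
    exact hz.2
  · intro m hm
    obtain ⟨z, hz, rfl⟩ := mem_image.mp hm
    rw [hP, mem_filter, mem_product] at hz
    obtain ⟨⟨hz1, hz2⟩, hz3⟩ := hz
    rw [hA, mem_SS] at hz1
    have hz4 := hQm _ hz2
    have hz5 : (z.1 : ℝ) ≤ 3 * y := by exact_mod_cast hz1.1.2
    refine ⟨z.1, z.2, hz1.2, ?_, hQp _ hz2, by omega, rfl⟩
    calc (z.1 : ℝ) ≤ 3 * y := hz5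
      _ ≤ (x : ℝ) ^ (δ / 4) * (x : ℝ) ^ (1 - δ / 2) := by gcongr
      _ = (x : ℝ) ^ (1 - δ / 4) := by
          rw [← Real.rpow_add hx0]
          congr 1
          ring
  · rw [div_le_iff₀ (by linarith)]
    rw [one_div, inv_mul_le_iff₀ (by positivity)]
    calc (h : ℝ) ≤ #I * ((1 + D / c2 ^ 2) * l3) := hfin
      _ = (1 + D / c2 ^ 2) * (#I * l3) := by ring

end Pool.Agent.V5helper50.PW
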